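import Mathlib

/-!
MP_50ef00_gt: consequences of the relators, in an arbitrary group.

* `t_pow`: the relators `R1, R2, R3` imply `t ^ 7775 = 1`.
* `comm_of_vk`: if `t ^ m = 1` with `m` odd, then `v_k = 1` implies `[w, t] = 1`.
-/

namespace Pool.Agent.Lib.MP_50ef00_gt.H96

variable {G : Type*} [Group G]

/-- the twisted commutator words -/
def vk (t w : G) : ℕ → G
  | 0 => w * t * w⁻¹ * t⁻¹
  | i + 1 => vk t w i * (t * vk t w i * t⁻¹)

lemma conj_iter {a b : G} {r : ℕ} (h : a * b * a⁻¹ = b ^ r) (n : ℕ) :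
    a ^ n * b * (a ^ n)⁻¹ = b ^ r ^ n := by
  induction n with
  | zero => simp
  | succ n ih =>
    have e1 : a ^ (n + 1) * b * (a ^ (n + 1))⁻¹ = a ^ n * (a * b * a⁻¹) * (a ^ n)⁻¹ := by
      rw [pow_succ]; group
    rw [e1, h, ← conj_pow, ih, ← pow_mul, pow_succ]

theorem t_pow (t x y : G) (R1 : y * x * y⁻¹ * x = 1)
    (R2 : y ^ 2 * t * (y ^ 2)⁻¹ = t ^ 6)
    (R3 : (x * t * x⁻¹) * t * (x * t * x⁻¹)⁻¹ = t ^ 6) : t ^ 7775 = 1 := by
  set z := y ^ 2 with hz
  have h1 : y * x * y⁻¹ = x⁻¹ := mul_eq_one_iff_eq_inv.mp R1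
  have h2 : z * x * z⁻¹ = x := by
    have e1 : z * x * z⁻¹ = y * (y * x * y⁻¹) * y⁻¹ := by
      rw [hz]; simp only [pow_two, mul_inv_rev, mul_assoc]
    have e2 : y * x⁻¹ * y⁻¹ = (y * x * y⁻¹)⁻¹ := by group
    rw [e1, h1, e2, h1, inv_inv]
  set T := x * t * x⁻¹ with hT
  have h3 : z * T * z⁻¹ = T ^ 6 := by
    have e1 : z * T * z⁻¹ = (z * x * z⁻¹) * (z * t * z⁻¹) * (z * x * z⁻¹)⁻¹ := by
      rw [hT]; group
    rw [e1, h2, R2, hT, conj_pow]
  have h4 : T ^ 6 * t ^ 6 * (T ^ 6)⁻¹ = t ^ 36 := by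
    have e1 : T ^ 6 * t ^ 6 * (T ^ 6)⁻¹ = z * (T * t * T⁻¹) * z⁻¹ := by
      rw [← h3, ← R2]; group
    rw [e1, R3, ← conj_pow, R2, ← pow_mul]
  have h5 : T ^ 6 * t ^ 6 * (T ^ 6)⁻¹ = t ^ (6 ^ 6 * 6) := by
    rw [← conj_pow, conj_iter R3 6, ← pow_mul]
  have h6 : t ^ 279900 = 1 := by
    have e1 : t ^ (279900 + 36) = t ^ 36 := by
      rw [← h4, h5]; norm_num
    rw [pow_add] at e1
    exact mul_eq_right.mp e1
  -- the order of `t` is prime to 6
  have hfin : 0 < orderOf t := orderOf_pos_iff.mpr (isOfFinOrder_iff_pow_eq_one.mpr ⟨279900, by norm_num, h6⟩)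
  have h7 : orderOf (t ^ 6) = orderOf t := by
    rw [← R2]
    exact orderOf_injective (MulAut.conj z).toMonoidHom (MulAut.conj z).injective t
  rw [orderOf_pow' t (by norm_num : (6 : ℕ) ≠ 0)] at h7
  have h8 : Nat.Coprime (orderOf t) 6 := by
    have h9 := Nat.div_mul_cancel (Nat.gcd_dvd_left (orderOf t) 6)
    rw [h7] at h9
    have h10 : orderOf t * Nat.gcd (orderOf t) 6 = orderOf t * 1 := by rw [mul_one]; exact h9
    exact Nat.eq_of_mul_eq_mul_left hfin h10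
  have h9 : orderOf t ∣ 36 * 7775 := by
    have := orderOf_dvd_of_pow_eq_one h6
    exact this
  have h10 : Nat.Coprime (orderOf t) 36 := by
    have : (36 : ℕ) = 6 * 6 := by norm_num
    rw [this]
    exact Nat.Coprime.mul_right h8 h8
  exact orderOf_dvd_iff_pow_eq_one.mp (h10.dvd_of_dvd_mul_left h9)

/-- an element of odd order which commutes with a power `t ^ (2 ^ j)` -/
lemma commute_of_pow_two {t v : G} {m j : ℕ} (hm : Odd m) (ht : t ^ m = 1)
    (h : Commute (t ^ 2 ^ j) v) : Commute t v := by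
  have hc : Nat.Coprime (2 ^ j) m := Nat.Coprime.pow_left j (Nat.coprime_two_left.mpr hm)
  have h1 : ∃ c d : ℤ, (2 ^ j : ℕ) * c + m * d = 1 := by
    refine ⟨Nat.gcdA (2 ^ j) m, Nat.gcdB (2 ^ j) m, ?_⟩
    have := Nat.gcd_eq_gcd_ab (2 ^ j) m
    rw [hc.gcd_eq_one] at this
    exact_mod_cast this.symm
  obtain ⟨c, d, hcd⟩ := h1
  have h2 : t = (t ^ 2 ^ j) ^ c := by
    calc t = t ^ (1 : ℤ) := by rw [zpow_one]
      _ = t ^ (((2 ^ j : ℕ) : ℤ) * c + m * d) := by rw [hcd]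
      _ = (t ^ (2 ^ j : ℕ)) ^ c * (t ^ m) ^ d := by
          rw [zpow_add, zpow_mul, zpow_mul, zpow_natCast, zpow_natCast]
      _ = (t ^ 2 ^ j) ^ c := by rw [ht, one_zpow, mul_one]
  rw [h2]
  exact h.zpow_left c

theorem comm_of_vk (t w : G) (m k : ℕ) (hm : Odd m) (ht : t ^ m = 1) (h : vk t w k = 1) :
    Commute w t := by
  have key : ∀ j ≤ k, Commute (vk t w (k - j)) t ∧ vk t w (k - j) ^ 2 ^ j = 1 := by
    intro j
    induction j with
    | zero => intro _; rw [Nat.sub_zero, h]; simp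
    | succ j ih =>
      intro hj
      obtain ⟨h1, h2⟩ := ih (by omega)
      set v := vk t w (k - (j + 1)) with hv
      have hc : vk t w (k - j) = v * (t * v * t⁻¹) := by
        have : k - j = (k - (j + 1)) + 1 := by omega
        rw [this, vk]
      set c := vk t w (k - j) with hcdef
      have e1 : t * v * t⁻¹ = v⁻¹ * c := by rw [hc]; group
      have e2 : t ^ 2 * v * (t ^ 2)⁻¹ = c⁻¹ * v * c := by
        have : t ^ 2 * v * (t ^ 2)⁻¹ = t * (t * v * t⁻¹) * t⁻¹ := by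
          simp only [pow_two, mul_inv_rev, mul_assoc]
        rw [this, e1]
        have h3 : t * (v⁻¹ * c) * t⁻¹ = (t * v * t⁻¹)⁻¹ * (t * c * t⁻¹) := by group
        have h4 : t * c * t⁻¹ = c := by rw [← h1.eq]; group
        rw [h3, h4, e1]; group
      have h5 : Commute (c * t ^ 2) v := by
        have : c * t ^ 2 * v = c * (t ^ 2 * v * (t ^ 2)⁻¹) * t ^ 2 := by group
        unfold Commute SemiconjBy
        rw [this, e2]; group
      have h6 : Commute ((c * t ^ 2) ^ 2 ^ j) v := h5.pow_left _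
      have h7 : (c * t ^ 2) ^ 2 ^ j = t ^ 2 ^ (j + 1) := by
        have h8 : Commute c (t ^ 2) := h1.pow_right 2
        rw [h8.mul_pow, h2, one_mul, ← pow_mul, pow_succ, mul_comm]
      rw [h7] at h6
      have h8 : Commute t v := commute_of_pow_two hm ht h6
      have h9 : c = v ^ 2 := by
        rw [hc]
        have : t * v * t⁻¹ = v := by rw [h8.eq]; group
        rw [this, sq]
      refine ⟨h8.symm, ?_⟩
      rw [pow_succ, mul_comm, pow_mul, ← h9, h2]
  obtain ⟨h1, h2⟩ := key k le_rfl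
  rw [Nat.sub_self] at h1 h2
  have h3 : w * t * w⁻¹ = vk t w 0 * t := by rw [vk]; group
  have h4 : (vk t w 0) ^ m = 1 := by
    have h5 : (w * t * w⁻¹) ^ m = 1 := by rw [conj_pow, ht]; group
    rw [h3, h1.mul_pow, ht, mul_one] at h5
    exact h5
  have h5 : vk t w 0 = 1 := by
    have hc : Nat.Coprime (2 ^ k) m := Nat.Coprime.pow_left k (Nat.coprime_two_left.mpr hm)
    have h6 := orderOf_dvd_of_pow_eq_one h2
    have h7 := orderOf_dvd_of_pow_eq_one h4
    have h8 := Nat.dvd_gcd h6 h7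
    rw [hc.gcd_eq_one] at h8
    exact orderOf_eq_one_iff.mp (Nat.dvd_one.mp h8)
  rw [h5, one_mul] at h3
  unfold Commute SemiconjBy
  calc w * t = (w * t * w⁻¹) * w := by group
    _ = t * w := by rw [h3]

lemma vk_eq_one {t w : G} (h : Commute w t) (k : ℕ) : vk t w k = 1 := by
  induction k with
  | zero => rw [vk, h.eq]; group
  | succ k ih => rw [vk, ih]; group

end Pool.Agent.Lib.MP_50ef00_gt.H96
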