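import Pool.Agent.Lib.MP_50ef00_gt.Pos

/-!
MP_50ef00_gt, P7: the holonomy along the path of a disc without its last triangle.
-/

namespace Pool.Agent.Lib.MP_50ef00_gt.H96

open H65

variable {G : Type} [Group G] {L : Finset (Finset ℕ)} {n N : ℕ} {p : ℕ → ℕ} {A : ℕ → ℕ → G}

lemma ring_zero (n N : ℕ) : ring n N 0 = 0 := by simp [ring]
lemma ring_n (n N : ℕ) : ring n N n = 0 := by simp [ring]
lemma ring_mid {n N i : ℕ} (h0 : i ≠ 0) (hn : i ≠ n) : ring n N i = N + i := by
  simp [ring, h0, hn]

lemma mem_S {i : ℕ} (hi : i < n) {t : Finset ℕ} (ht : t ⊆ {ring n N i, p i, p (i + 1)})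
    (h0 : t.Nonempty) (hne : t ≠ tau n N) : t ∈ (L ∪ disc n p N).erase (tau n N) := by
  refine Finset.mem_erase.mpr ⟨hne, Finset.mem_union_right _ ?_⟩
  simp only [disc, Finset.mem_biUnion, Finset.mem_range, Finset.mem_union, simplex,
    Finset.mem_filter, Finset.mem_powerset]
  exact ⟨i, hi, Or.inl (Or.inl ⟨ht, h0⟩)⟩

lemma mem_T {i : ℕ} (hi : i < n) {t : Finset ℕ}
    (ht : t ⊆ {ring n N i, p (i + 1), ring n N (i + 1)})
    (h0 : t.Nonempty) (hne : t ≠ tau n N) : t ∈ (L ∪ disc n p N).erase (tau n N) := by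
  refine Finset.mem_erase.mpr ⟨hne, Finset.mem_union_right _ ?_⟩
  simp only [disc, Finset.mem_biUnion, Finset.mem_range, Finset.mem_union, simplex,
    Finset.mem_filter, Finset.mem_powerset]
  exact ⟨i, hi, Or.inl (Or.inr ⟨ht, h0⟩)⟩

lemma mem_C {i : ℕ} (hi : i < n) {t : Finset ℕ}
    (ht : t ⊆ {N, ring n N i, ring n N (i + 1)})
    (h0 : t.Nonempty) (hne : t ≠ tau n N) : t ∈ (L ∪ disc n p N).erase (tau n N) := by
  refine Finset.mem_erase.mpr ⟨hne, Finset.mem_union_right _ ?_⟩
  simp only [disc, Finset.mem_biUnion, Finset.mem_range, Finset.mem_union, simplex,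
    Finset.mem_filter, Finset.mem_powerset]
  exact ⟨i, hi, Or.inr ⟨ht, h0⟩⟩

lemma p_lt (h : GoodPath L n N p) {i : ℕ} (hi : i ≤ n) : p i < N := by
  rcases Nat.lt_or_ge i n with h1 | h1
  · exact h.lt _ (h.edge i h1) _ (by simp)
  · have : i = n := le_antisymm hi h1
    rw [this, h.pn, ← h.p0]
    exact h.lt _ (h.edge 0 (by have := h.n3; omega)) _ (by simp)

lemma N_pos (h : GoodPath L n N p) : 0 < N := by
  have := p_lt h (Nat.zero_le n)
  omega

lemma ring_ne_N (h : GoodPath L n N p) (i : ℕ) : ring n N i ≠ N := by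
  have := N_pos h
  unfold ring
  split_ifs with h1
  · omega
  · simp only [not_or] at h1; omega

/-- sets without the vertex `N` are not the last triangle -/
lemma ne_tau {t : Finset ℕ} (h : N ∉ t) : t ≠ tau n N := by
  intro he
  apply h
  rw [he]; simp [tau]

lemma ne_tau' {t : Finset ℕ} (h : GoodPath L n N p) (ht : t.card ≤ 2) : t ≠ tau n N := by
  intro he
  rw [he] at ht
  have h3 := h.n3
  have hN := N_pos h
  have : (tau n N).card = 3 := by
    rw [tau, Finset.card_insert_of_notMem, Finset.card_insert_of_notMem, Finset.card_singleton]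
    · simp only [Finset.mem_singleton]; omega
    · simp only [Finset.mem_insert, Finset.mem_singleton]; omega
  omega

section

variable (h : GoodPath L n N p) (hA : IsCocycle ((L ∪ disc n p N).erase (tau n N)) A)

include h hA

lemma tri_S {i : ℕ} (hi : i < n) :
    A (ring n N i) (p i) * A (p i) (p (i + 1)) = A (ring n N i) (p (i + 1)) := by
  apply hA
  refine mem_S hi (Finset.Subset.refl _) (by simp) (ne_tau ?_)
  have h1 := ring_ne_N h i
  have h2 := p_lt h hi.le
  have h3 : p (i + 1) < N := p_lt h hi
  simp only [Finset.mem_insert, Finset.mem_singleton, not_or]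
  refine ⟨h1.symm, by omega, by omega⟩

lemma tri_T {i : ℕ} (hi : i < n) :
    A (ring n N i) (p (i + 1)) * A (p (i + 1)) (ring n N (i + 1)) =
      A (ring n N i) (ring n N (i + 1)) := by
  apply hA
  refine mem_T hi (Finset.Subset.refl _) (by simp) (ne_tau ?_)
  have h1 := ring_ne_N h i
  have h2 := ring_ne_N h (i + 1)
  have h3 : p (i + 1) < N := p_lt h hi
  simp only [Finset.mem_insert, Finset.mem_singleton, not_or]
  refine ⟨h1.symm, by omega, h2.symm⟩

lemma vert_S {i : ℕ} (hi : i < n) : A (p i) (p i) = 1 := by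
  have h1 : A (p i) (p i) * A (p i) (p i) = A (p i) (p i) := by
    apply hA
    refine mem_S hi ?_ (by simp) (ne_tau' h (by simp))
    intro x hx; simp at hx; simp [hx]
  exact mul_eq_left.mp h1

lemma edge_S {i : ℕ} (hi : i < n) : A (p i) (ring n N i) * A (ring n N i) (p i) = 1 := by
  have h1 : A (p i) (ring n N i) * A (ring n N i) (p i) = A (p i) (p i) := by
    apply hA
    refine mem_S hi ?_ (by simp) (ne_tau' h ?_)
    · intro x hx; simp only [Finset.mem_insert, Finset.mem_singleton] at hx ⊢; tauto
    · have : ({p i, ring n N i, p i} : Finset ℕ) = {p i, ring n N i} := by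
        ext x; simp only [Finset.mem_insert, Finset.mem_singleton]; tauto
      rw [this]; exact Finset.card_le_two
  rw [h1, vert_S h hA hi]

/-- the holonomy along the path is the holonomy along the ring -/
lemma hol_ring {i : ℕ} (hi : i ≤ n) :
    hol A p i * A (p i) (ring n N i) = hol A (ring n N) i := by
  induction i with
  | zero =>
    rw [hol, hol, ring_zero, h.p0]
    have := vert_S h hA (show 0 < n by have := h.n3; omega)
    rw [h.p0] at this
    rw [this, one_mul]
  | succ i ih =>
    have hi' : i < n := hi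
    rw [hol, hol, ← ih hi'.le, ← tri_T h hA hi', ← tri_S h hA hi']
    have := edge_S h hA hi'
    calc hol A p i * A (p i) (p (i + 1)) * A (p (i + 1)) (ring n N (i + 1))
        = hol A p i * 1 * A (p i) (p (i + 1)) * A (p (i + 1)) (ring n N (i + 1)) := by
          rw [mul_one]
      _ = _ := by rw [← this]; simp only [mul_assoc]

lemma cone_ne {j : ℕ} (hj : j + 1 < n) :
    ({N, ring n N j, ring n N (j + 1)} : Finset ℕ) ≠ tau n N := by
  have h3 := h.n3
  have hN := N_pos h
  rw [ring_mid (by omega : j + 1 ≠ 0) (by omega : j + 1 ≠ n)]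
  intro he
  by_cases h0 : j = 0
  · subst h0
    rw [ring_zero] at he
    have h1 : N + (n - 1) ∈ ({N, 0, N + (0 + 1)} : Finset ℕ) := by
      rw [he]; simp [tau]
    simp only [Finset.mem_insert, Finset.mem_singleton] at h1
    omega
  · rw [ring_mid h0 (by omega : j ≠ n)] at he
    have h1 : 0 ∈ ({N, N + j, N + (j + 1)} : Finset ℕ) := by
      rw [he]; simp [tau]
    simp only [Finset.mem_insert, Finset.mem_singleton] at h1
    omega

lemma tri_C {j : ℕ} (hj : j + 1 < n) :
    A (ring n N j) N * A N (ring n N (j + 1)) = A (ring n N j) (ring n N (j + 1)) := by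
  apply hA
  have e : ({ring n N j, N, ring n N (j + 1)} : Finset ℕ) = {N, ring n N j, ring n N (j + 1)} := by
    ext x; simp only [Finset.mem_insert, Finset.mem_singleton]; tauto
  rw [e]
  exact mem_C (by omega) (Finset.Subset.refl _) (by simp) (cone_ne h hA hj)

lemma vert_N : A N N = 1 := by
  have h1 : A N N * A N N = A N N := by
    apply hA
    refine mem_C (i := 0) (by have := h.n3; omega) ?_ (by simp) (ne_tau' h (by simp))
    intro x hx; simp at hx; simp [hx]
  exact mul_eq_left.mp h1

lemma edge_C {j : ℕ} (hj : j < n) : A N (ring n N j) * A (ring n N j) N = 1 := by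
  have h1 : A N (ring n N j) * A (ring n N j) N = A N N := by
    apply hA
    refine mem_C hj ?_ (by simp) (ne_tau' h ?_)
    · intro x hx; simp only [Finset.mem_insert, Finset.mem_singleton] at hx ⊢; tauto
    · have : ({N, ring n N j, N} : Finset ℕ) = {N, ring n N j} := by
        ext x; simp only [Finset.mem_insert, Finset.mem_singleton]; tauto
      rw [this]; exact Finset.card_le_two
  rw [h1, vert_N h hA]

lemma hol_cone {j : ℕ} (hj : j < n) : hol A (ring n N) j = A 0 N * A N (ring n N j) := by
  induction j with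
  | zero =>
    rw [hol, ring_zero]
    have h1 := edge_C h hA (show 0 < n by have := h.n3; omega)
    rw [ring_zero] at h1
    exact (mul_eq_one_comm.mp h1).symm
  | succ j ih =>
    rw [hol, ih (by omega), ← tri_C h hA hj]
    have := edge_C h hA (show j < n by omega)
    calc A 0 N * A N (ring n N j) * (A (ring n N j) N * A N (ring n N (j + 1)))
        = A 0 N * (A N (ring n N j) * A (ring n N j) N) * A N (ring n N (j + 1)) := by
          simp only [mul_assoc]
      _ = _ := by rw [this, mul_one]

end

/-- module P7 -/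
theorem strip_hol : StripHolStatement := by
  intro G _ L n N p A h hA
  have h3 := h.n3
  have h1 := hol_ring h hA (le_refl n)
  rw [ring_n, h.pn] at h1
  have h0 := vert_S h hA (show 0 < n by omega)
  rw [h.p0] at h0
  rw [h0, mul_one] at h1
  obtain ⟨m, rfl⟩ : ∃ m, n = m + 1 := ⟨n - 1, by omega⟩
  rw [h1, hol, hol_cone h hA (show m < m + 1 by omega), ring_n,
    ring_mid (show m ≠ 0 by omega) (by omega), Nat.add_sub_cancel]

end Pool.Agent.Lib.MP_50ef00_gt.H96
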