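import Pool.Agent.Lib.MP_50ef00_gt.H96.FreeProd
import Pool.Agent.Lib.MP_50ef00_gt.H96.Words

/-!
MP_50ef00_gt, negative side: the surjective homomorphisms from `π` to `P = C₅ * C₂`.
-/

namespace Pool.Agent.Lib.MP_50ef00_gt.H96

open Monoid Monoid.CoprodI

/-- the two factors: `C₅` (index `true`) and `C₂` (index `false`) -/
abbrev Gf (i : Bool) : Type := Multiplicative (ZMod (cond i 5 2))

/-- the free product `C₅ * C₂` -/
abbrev P : Type := CoprodI Gf

/-- inclusion of `C₅` -/
abbrev oT : Gf true →* P := of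

/-- inclusion of `C₂` -/
abbrev oY : Gf false →* P := of

/-- the involution -/
def yg : Gf false := Multiplicative.ofAdd (1 : ZMod 2)

/-- the involution in `P` -/
def yP : P := oY yg

lemma yg_ne : yg ≠ 1 := by decide

lemma eq_yg (a : Gf false) (ha : a ≠ 1) : a = yg := by
  have h : ∀ b : ZMod 2, b ≠ 0 → b = 1 := by decide
  exact Multiplicative.toAdd.injective (h (Multiplicative.toAdd a) ha)

lemma yg_sq : yg * yg = 1 := by decide

lemma pow5 (a : Gf true) : a ^ 5 = 1 := by
  have h : ∀ b : ZMod 5, 5 • b = 0 := by decide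
  exact Multiplicative.toAdd.injective (h (Multiplicative.toAdd a))

lemma pow2 (a : Gf false) : a ^ 2 = 1 := by
  have h : ∀ b : ZMod 2, 2 • b = 0 := by decide
  exact Multiplicative.toAdd.injective (h (Multiplicative.toAdd a))

lemma yP_sq : yP * yP = 1 := by
  rw [yP, ← map_mul, yg_sq, map_one]

lemma yP_ne : yP ≠ 1 := by
  intro h
  apply yg_ne
  exact of_injective false (by rw [map_one]; exact h)

/-- substitution of a longer word for the involution -/
lemma subst_word (W : NeWord Gf false false) (hW : 3 ≤ nlen W) (φ : P →* P)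
    (h1 : ∀ a : Gf true, φ (oT a) = oT a) (h2 : φ yP = W.prod) {i j : Bool} (u : NeWord Gf i j) :
    ∃ u' : NeWord Gf i j, u'.prod = φ u.prod ∧ (i = false → 3 ≤ nlen u') := by
  induction u with
  | @singleton i x hx =>
    cases i with
    | true =>
      refine ⟨NeWord.singleton x hx, ?_, by simp⟩
      rw [NeWord.prod_singleton]
      exact (h1 x).symm
    | false =>
      refine ⟨W, ?_, fun _ => hW⟩
      rw [NeWord.prod_singleton, eq_yg x hx]
      exact h2.symm
  | append w₁ hne w₂ ih₁ ih₂ =>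
    obtain ⟨u₁, a1, b1⟩ := ih₁
    obtain ⟨u₂, a2, b2⟩ := ih₂
    refine ⟨NeWord.append u₁ hne u₂, ?_, ?_⟩
    · rw [NeWord.append_prod, NeWord.append_prod, map_mul, a1, a2]
    · intro hi
      rw [nlen_append]
      have := b1 hi
      omega

/-- if `C₅` and a conjugate of the involution generate `P`, the conjugating element can be taken in
`C₅` -/
lemma gen_conj (h : P) (hgen : oT.range ⊔ Subgroup.zpowers (h * yP * h⁻¹) = ⊤) :
    ∃ b : Gf true, h * yP * h⁻¹ = oT b * yP * (oT b)⁻¹ := by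
  have stepA : ∃ h' : P, (h' = 1 ∨ ∃ w : NeWord Gf false true, w.prod = h') ∧
      ∃ b : Gf true, h * yP * h⁻¹ = oT b * (h' * yP * h'⁻¹) * (oT b)⁻¹ := by
    by_cases h1 : h = 1
    · exact ⟨1, Or.inl rfl, 1, by rw [h1]; simp⟩
    obtain ⟨i, j, w, hw⟩ := exists_neWord h h1
    -- words ending in `C₅`
    have endT : ∀ (i : Bool) (w : NeWord Gf i true),
        ∃ h' : P, (h' = 1 ∨ ∃ w : NeWord Gf false true, w.prod = h') ∧
        ∃ b : Gf true, w.prod * yP * w.prod⁻¹ = oT b * (h' * yP * h'⁻¹) * (oT b)⁻¹ := by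
      intro i w
      cases i with
      | false => exact ⟨w.prod, Or.inr ⟨w, rfl⟩, 1, by simp⟩
      | true =>
        by_cases h2 : nlen w = 1
        · obtain ⟨a, ha, hwa, _⟩ := nlen_one w h2
          exact ⟨1, Or.inl rfl, a, by rw [hwa]; simp⟩
        · have h3 : 2 ≤ nlen w := by have := nlen_pos w; omega
          obtain ⟨a, k, u, ha, hk, hwu, _⟩ := split_head w h3
          obtain rfl : k = false := by simpa using hk
          refine ⟨u.prod, Or.inr ⟨u, rfl⟩, a, ?_⟩
          rw [hwu]; group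
    cases j with
    | true => rw [← hw]; exact endT i w
    | false =>
      by_cases h2 : nlen w = 1
      · obtain ⟨a, ha, hwa, hi⟩ := nlen_one w h2
        subst hi
        refine ⟨1, Or.inl rfl, 1, ?_⟩
        have : h = yP := by rw [← hw, hwa, eq_yg a ha]; rfl
        rw [this]; simp
      · have h3 : 2 ≤ nlen w := by have := nlen_pos w; omega
        obtain ⟨b, k, u, hb, hk, hwu, _⟩ := split_last w h3
        obtain rfl : k = true := by simpa using hk
        obtain ⟨h', H, b', hb'⟩ := endT i u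
        refine ⟨h', H, b', ?_⟩
        rw [← hb', ← hw, hwu, eq_yg b hb]
        change u.prod * yP * yP * (u.prod * yP)⁻¹ = _
        group
  obtain ⟨h', H, b, hb⟩ := stepA
  rcases H with H | ⟨w, hw⟩
  · exact ⟨b, by rw [hb, H]; simp⟩
  exfalso
  -- the reduced word for the conjugate
  let W : NeWord Gf false false := NeWord.append (NeWord.append w (by decide)
    (NeWord.singleton yg yg_ne)) (by decide) w.inv
  have hW : W.prod = h' * yP * h'⁻¹ := by
    simp only [W, NeWord.append_prod, NeWord.prod_singleton, NeWord.inv_prod, hw]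
    rfl
  have hW3 : 3 ≤ nlen W := by
    simp only [W, nlen_append, nlen_singleton, nlen_inv]
    have := nlen_pos w
    omega
  let φ : P →* P := lift (fun i => match i with
    | true => oT
    | false => (MulAut.conj h').toMonoidHom.comp oY)
  have p1 : ∀ a : Gf true, φ (oT a) = oT a := fun a => lift_of _ a
  have p2 : φ yP = W.prod := by
    rw [hW]
    exact lift_of _ yg
  have hsurj : φ.range = ⊤ := by
    rw [eq_top_iff, ← hgen, sup_le_iff]
    constructor
    · rintro _ ⟨a, rfl⟩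
      exact ⟨oT a, p1 a⟩
    · rw [Subgroup.zpowers_le, hb]
      refine ⟨oT b * yP * (oT b)⁻¹, ?_⟩
      rw [map_mul, map_mul, map_inv, p1, p2, hW]
  have hy : yP ∈ φ.range := by rw [hsurj]; trivial
  obtain ⟨p, hp⟩ := hy
  have hp1 : p ≠ 1 := by
    intro h0
    rw [h0, map_one] at hp
    exact yP_ne hp.symm
  obtain ⟨i, j, u, hu⟩ := exists_neWord p hp1
  obtain ⟨u', hu', hl⟩ := subst_word W hW3 φ p1 p2 u
  have e1 : u'.prod = (NeWord.singleton yg yg_ne).prod := by
    rw [hu', hu, hp, NeWord.prod_singleton]; rfl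
  have e2 := fst_eq_of_prod_eq _ _ e1
  have e3 := nlen_eq_of_prod_eq _ _ e1
  rw [nlen_singleton] at e3
  have e4 := hl e2
  omega

/-- classification of the surjective homomorphisms which do not kill `t` -/
theorem classify (t x y w : P) (k : ℕ) (R1 : y * x * y⁻¹ * x = 1)
    (R2 : y ^ 2 * t * (y ^ 2)⁻¹ = t ^ 6)
    (R3 : (x * t * x⁻¹) * t * (x * t * x⁻¹)⁻¹ = t ^ 6) (S : vk t w k = 1)
    (hgen : Subgroup.closure {t, x, y, w} = ⊤) (ht : t ≠ 1) :
    ∃ (h : P) (a c : Gf true), a ≠ 1 ∧ t = h * oT a * h⁻¹ ∧ x = 1 ∧ y = h * yP * h⁻¹ ∧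
      w = h * oT c * h⁻¹ := by
  have ht1 := t_pow t x y R1 R2 R3
  have hwt : Commute w t := comm_of_vk t w 7775 k (by decide) ht1 S
  -- `t` is conjugate to an element of `C₅`
  obtain ⟨i, a, h₀, ha, hta⟩ := torsion_conj t ht 7775 (by norm_num) ht1
  have hi : i = true := by
    by_contra hi
    obtain rfl : i = false := by simpa using hi
    have h2 : t ^ 2 = 1 := by
      rw [hta, conj_pow, ← map_pow, pow2, map_one]; group
    apply ht
    have h3 : t ^ 7775 = t := by
      rw [show 7775 = 2 * 3887 + 1 by norm_num, pow_succ, pow_mul, h2, one_pow, one_mul]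
    rw [← h3, ht1]
  subst hi
  -- conjugate everything
  set x' := h₀⁻¹ * x * h₀ with hx'
  set y' := h₀⁻¹ * y * h₀ with hy'
  set w' := h₀⁻¹ * w * h₀ with hw'
  have eT : h₀⁻¹ * t * h₀ = oT a := by rw [hta]; group
  have a6 : (oT a) ^ 6 = oT a := by
    rw [← map_pow, show 6 = 5 + 1 by norm_num, pow_succ, pow5, one_mul]
  have e6 : h₀⁻¹ * t ^ 6 * h₀ = oT a := by
    have := conj_pow (i := 6) (a := h₀⁻¹) (b := t)
    rw [inv_inv] at this
    rw [← this, eT, a6]
  have R1' : y' * x' * y'⁻¹ * x' = 1 := by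
    have : y' * x' * y'⁻¹ * x' = h₀⁻¹ * (y * x * y⁻¹ * x) * h₀ := by rw [hx', hy']; group
    rw [this, R1]; group
  have R2' : y' ^ 2 * oT a * (y' ^ 2)⁻¹ = oT a := by
    rw [← eT]
    have : y' ^ 2 = h₀⁻¹ * y ^ 2 * h₀ := by rw [hy', pow_two, pow_two]; group
    rw [this]
    have e : h₀⁻¹ * y ^ 2 * h₀ * (h₀⁻¹ * t * h₀) * (h₀⁻¹ * y ^ 2 * h₀)⁻¹ =
      h₀⁻¹ * (y ^ 2 * t * (y ^ 2)⁻¹) * h₀ := by group
    rw [e, R2, e6, eT]
  have R3' : (x' * oT a * x'⁻¹) * oT a * (x' * oT a * x'⁻¹)⁻¹ = oT a := by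
    rw [← eT]
    have e : (x' * (h₀⁻¹ * t * h₀) * x'⁻¹) * (h₀⁻¹ * t * h₀) * (x' * (h₀⁻¹ * t * h₀) * x'⁻¹)⁻¹ =
      h₀⁻¹ * ((x * t * x⁻¹) * t * (x * t * x⁻¹)⁻¹) * h₀ := by rw [hx']; group
    rw [e, R3, e6, eT]
  have W' : w' * oT a * w'⁻¹ = oT a := by
    rw [← eT]
    have e : w' * (h₀⁻¹ * t * h₀) * w'⁻¹ = h₀⁻¹ * (w * t) * w⁻¹ * h₀ := by rw [hw']; group
    rw [e, hwt.eq]; group
  have hgen' : Subgroup.closure {oT a, x', y', w'} = ⊤ := by
    have e : ({oT a, x', y', w'} : Set P) =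
        (MulAut.conj h₀⁻¹).toMonoidHom '' {t, x, y, w} := by
      simp only [Set.image_insert_eq, Set.image_singleton, MulEquiv.coe_toMonoidHom,
        MulAut.conj_apply, inv_inv]
      rw [eT]
    rw [e, ← MonoidHom.map_closure, hgen]
    rw [← MonoidHom.range_eq_map]
    exact MonoidHom.range_eq_top.mpr (MulAut.conj h₀⁻¹).surjective
  -- everything but `y'` is in `C₅`
  have hx1 : x' ∈ oT.range := by
    have h1 : x' * oT a * x'⁻¹ ∈ oT.range := mem_range_of_conj a ha a _ R3'
    obtain ⟨b, hb⟩ := h1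
    exact mem_range_of_conj a ha b _ hb.symm
  have hw1 : w' ∈ oT.range := mem_range_of_conj a ha a _ W'
  have hz1 : y' ^ 2 ∈ oT.range := mem_range_of_conj a ha a _ R2'
  have hy1 : y' ∉ oT.range := by
    intro hy1
    have h1 : Subgroup.closure {oT a, x', y', w'} ≤ oT.range := by
      rw [Subgroup.closure_le]
      rintro g (rfl | rfl | rfl | rfl)
      · exact ⟨a, rfl⟩
      · exact hx1
      · exact hy1
      · exact hw1
    rw [hgen'] at h1
    have h2 : yP ∈ oT.range := h1 trivial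
    obtain ⟨b, hb⟩ := h2
    have hb1 : b ≠ 1 := by
      intro h0; rw [h0, map_one] at hb; exact yP_ne hb.symm
    have e1 : (NeWord.singleton b hb1 : NeWord Gf true true).prod =
        (NeWord.singleton yg yg_ne : NeWord Gf false false).prod := by
      rw [NeWord.prod_singleton, NeWord.prod_singleton]; exact hb
    have := fst_eq_of_prod_eq _ _ e1
    exact absurd this (by decide)
  have hy2 : y' ^ 2 = 1 := by
    obtain ⟨c, hc⟩ := hz1
    by_contra hne
    have hc1 : c ≠ 1 := by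
      intro h0; rw [h0, map_one] at hc; exact hne hc.symm
    apply hy1
    refine mem_range_of_conj c hc1 c _ ?_
    rw [show (of c : P) = y' ^ 2 from hc]; group
  have hx2 : x' = 1 := by
    obtain ⟨d, hd⟩ := hx1
    by_contra hne
    have hd1 : d ≠ 1 := by
      intro h0; rw [h0, map_one] at hd; exact hne hd.symm
    apply hy1
    refine mem_range_of_conj d hd1 d⁻¹ _ ?_
    rw [map_inv, show (of d : P) = x' from hd]
    exact mul_eq_one_iff_eq_inv.mp R1'
  have hy3 : y' ≠ 1 := by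
    intro h0; apply hy1; rw [h0]; exact one_mem _
  obtain ⟨i, e, h₁, he, hye⟩ := torsion_conj y' hy3 2 (by norm_num) hy2
  have hi : i = false := by
    by_contra hi
    obtain rfl : i = true := by simpa using hi
    have h5 : y' ^ 5 = 1 := by
      rw [hye, conj_pow, ← map_pow, pow5, map_one]; group
    apply hy3
    have h6 : y' ^ (2 * 2 + 1) = y' := by rw [pow_succ, pow_mul, hy2, one_pow, one_mul]
    rw [← h6]; exact h5
  subst hi
  have hye' : y' = h₁ * yP * h₁⁻¹ := by rw [hye, eq_yg e he]; rfl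
  have hg : oT.range ⊔ Subgroup.zpowers (h₁ * yP * h₁⁻¹) = ⊤ := by
    rw [eq_top_iff, ← hgen', Subgroup.closure_le]
    rintro g (rfl | rfl | rfl | rfl)
    · exact Subgroup.mem_sup_left ⟨a, rfl⟩
    · exact Subgroup.mem_sup_left hx1
    · apply Subgroup.mem_sup_right
      rw [← hye']; exact Subgroup.mem_zpowers _
    · exact Subgroup.mem_sup_left hw1
  obtain ⟨b, hb⟩ := gen_conj h₁ hg
  obtain ⟨c, hc⟩ := hw1
  refine ⟨h₀ * oT b, a, c, ha, ?_, ?_, ?_, ?_⟩
  · have : oT b * oT a * (oT b)⁻¹ = oT a := by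
      rw [← map_mul, ← map_inv, ← map_mul, mul_comm b a, mul_assoc, mul_inv_cancel, mul_one]
    calc t = h₀ * (h₀⁻¹ * t * h₀) * h₀⁻¹ := by group
      _ = h₀ * (oT b * oT a * (oT b)⁻¹) * h₀⁻¹ := by rw [eT, this]
      _ = _ := by group
  · calc x = h₀ * x' * h₀⁻¹ := by rw [hx']; group
      _ = 1 := by rw [hx2]; group
  · calc y = h₀ * y' * h₀⁻¹ := by rw [hy']; group
      _ = _ := by rw [hye', hb]; group
  · have : oT b * oT c * (oT b)⁻¹ = oT c := by
      rw [← map_mul, ← map_inv, ← map_mul, mul_comm b c, mul_assoc, mul_inv_cancel, mul_one]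
    calc w = h₀ * w' * h₀⁻¹ := by rw [hw']; group
      _ = h₀ * (oT b * oT c * (oT b)⁻¹) * h₀⁻¹ := by rw [← hc, this]
      _ = _ := by group

end Pool.Agent.Lib.MP_50ef00_gt.H96
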