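import Pool.Agent.Lib.MP_50ef00_gt.Neg
import Pool.Agent.Lib.MP_50ef00_gt.H96.Classify

/-!
MP_50ef00_gt, negative side: values of the words `R1, R2, R3, v_k` in groups, and in the group of
triples.
-/

namespace Pool.Agent.Lib.MP_50ef00_gt.H96

open H65 Matrix

section words

variable {G : Type*} [Group G] (γ : Fin 4 → G)

lemma wval_append (u v : Word) : wval γ (u ++ v) = wval γ u * wval γ v := by
  simp [wval]

lemma wval_R1 : wval γ R1 = γ 2 * γ 1 * (γ 2)⁻¹ * γ 1 := by
  simp [wval, R1, mul_assoc]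

lemma wval_R2 : wval γ R2 = γ 2 ^ 2 * γ 0 * (γ 2 ^ 2)⁻¹ * (γ 0 ^ 6)⁻¹ := by
  rw [R2, wval_append]
  simp only [wval, List.map_replicate, List.prod_replicate, List.map_cons, List.map_nil,
    List.prod_cons, List.prod_nil, if_true, Bool.false_eq_true, if_false]
  rw [inv_pow, pow_two]; group

lemma wval_R3 : wval γ R3 =
    (γ 1 * γ 0 * (γ 1)⁻¹) * γ 0 * (γ 1 * γ 0 * (γ 1)⁻¹)⁻¹ * (γ 0 ^ 6)⁻¹ := by
  rw [R3, wval_append]
  simp only [wval, List.map_replicate, List.prod_replicate, List.map_cons, List.map_nil,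
    List.prod_cons, List.prod_nil, if_true, Bool.false_eq_true, if_false]
  rw [inv_pow]; group

lemma wval_vk (k : ℕ) : wval γ (MP_50ef00_gt.vk k) = vk (γ 0) (γ 3) k := by
  induction k with
  | zero => simp [wval, MP_50ef00_gt.vk, vk, mul_assoc]
  | succ k ih =>
    rw [MP_50ef00_gt.vk, wval_append, wval_append, wval_append, ih, vk]
    simp only [wval, List.map_cons, List.map_nil, List.prod_cons, List.prod_nil, if_true,
      Bool.false_eq_true, if_false, mul_one]
    simp only [mul_assoc]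

lemma wval_map {H : Type*} [Group H] (f : G →* H) (w : Word) :
    wval (fun i => f (γ i)) w = f (wval γ w) := by
  unfold wval
  rw [map_list_prod, List.map_map]
  congr 1
  apply List.map_congr_left
  intro l _
  simp only [Function.comp_apply]
  split_ifs <;> simp

end words

/-- the projection to `P` -/
def pHom : PZ →* P where
  toFun g := g.p
  map_one' := rfl
  map_mul' _ _ := rfl

@[simp] lemma pHom_apply (g : PZ) : pHom g = g.p := rfl

/-! ### triples -/

lemma trip_pow_A (a : Trip) (n : ℕ) : (a ^ n).A = a.A ^ n := by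
  induction n with
  | zero => rfl
  | succ n ih => rw [pow_succ, pow_succ, Trip.mul_A, ih]

/-- quotient of two triples with the same holonomy -/
lemma trip_div (a b : Trip) (h : a.A = b.A) (g : Fin 4) :
    (a * b⁻¹).F g = a.F g - b.F g ∧ (a * b⁻¹).Q = a.Q - b.Q := by
  constructor
  · rw [Trip.mul_F, Trip.inv_F, h]
    have := rho_ne_zero b.A
    field_simp
    ring
  · rw [Trip.mul_Q, Trip.inv_Q, Trip.inv_A, h, mul_inv_cancel, pos_one, cross_zero_right]
    have := rho_ne_zero b.A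
    field_simp
    ring

/-- commutators of triples with commuting holonomies -/
lemma trip_comm (a b : Trip) (h : a.A * b.A = b.A * a.A) (g : Fin 4) :
    (a * b * a⁻¹ * b⁻¹).F g = (1 - rho b.A) * a.F g + (rho a.A - 1) * b.F g ∧
    (a * b * a⁻¹ * b⁻¹).Q = (1 - rho b.A) * a.Q + (rho a.A - 1) * b.Q +
      cross (pos a.A) (pos (a.A * b.A)) - cross (pos b.A) (pos (b.A * a.A)) := by
  have e : a * b * a⁻¹ * b⁻¹ = (a * b) * (b * a)⁻¹ := by group
  rw [e]
  obtain ⟨h1, h2⟩ := trip_div (a * b) (b * a) h g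
  rw [h1, h2, Trip.mul_F, Trip.mul_F, Trip.mul_Q, Trip.mul_Q]
  constructor <;> ring

/-- the rotation `t` has order 5 as a triple -/
lemma gen_pow5 (γ : Fin 4 → G2) (h5 : γ 0 ^ 5 = 1) (h1 : (γ 0).1 = 1) (hz : rho (γ 0) ≠ 1) :
    Trip.gen γ 0 ^ 5 = 1 := by
  have hpos : ∀ n : ℕ, (pos (γ 0 ^ n)).1 = 0 := by
    intro n
    have : (γ 0 ^ n).1 = 1 := by rw [Prod.pow_fst, h1, one_pow]
    simp [pos, this]
  have hrho : ∀ n : ℕ, rho (γ 0 ^ n) = rho (γ 0) ^ n := by
    intro n
    induction n with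
    | zero => simp
    | succ n ih => rw [pow_succ, pow_succ, rho_mul, ih]
  have key : ∀ n : ℕ, (∀ g, (Trip.gen γ 0 ^ n).F g =
      (∑ i ∈ Finset.range n, rho (γ 0) ^ i) * (Pi.single 0 1 : Fin 4 → ℂ) g) ∧
      (Trip.gen γ 0 ^ n).Q = 0 := by
    intro n
    induction n with
    | zero => simp
    | succ n ih =>
      have hA : (Trip.gen γ 0 ^ n).A = γ 0 ^ n := trip_pow_A _ _
      constructor
      · intro g
        rw [pow_succ, Trip.mul_F, ih.1 g, hA, hrho, Finset.sum_range_succ]
        simp only [Trip.gen]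
        ring
      · rw [pow_succ, Trip.mul_Q, ih.2, hA]
        have : (Trip.gen γ 0).Q = 0 := rfl
        rw [this, mul_zero, add_zero, zero_add]
        change cross (pos (γ 0 ^ n)) (pos (γ 0 ^ n * γ 0)) = 0
        rw [← pow_succ]
        simp [cross, hpos]
  have hs : ∑ i ∈ Finset.range 5, rho (γ 0) ^ i = 0 := by
    have h : (rho (γ 0) - 1) * ∑ i ∈ Finset.range 5, rho (γ 0) ^ i = 0 := by
      rw [mul_comm, geom_sum_mul, ← hrho, h5, rho_one, sub_self]
    rcases mul_eq_zero.mp h with h' | h'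
    · exact absurd (sub_eq_zero.mp h') hz
    · exact h'
  ext1
  · rw [trip_pow_A]; exact h5
  · funext g
    rw [(key 5).1 g, hs, zero_mul]; rfl
  · exact (key 5).2

end Pool.Agent.Lib.MP_50ef00_gt.H96
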