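import Mathlib

/-!
MP_50ef00_gt, negative side: the final inequality.
-/

namespace Pool.Agent.Lib.MP_50ef00_gt.H96

open Complex

/-- the values of the invariant, up to normalisation -/
def valSet (k : ℕ) : Set ℝ :=
  {r | ∃ (a : ℤ) (j : ZMod 5), a ≠ 0 ∧ j ≠ 0 ∧
    r = (a : ℝ) ^ 2 * ‖1 - (ZMod.toCircle j : ℂ)‖ ^ 6 * ‖1 + (ZMod.toCircle j : ℂ)‖ ^ (2 * k)}

lemma toCircle_pow5 (j : ZMod 5) : (ZMod.toCircle j : ℂ) ^ 5 = 1 := by
  rw [← Circle.coe_pow, ← AddChar.map_nsmul_eq_pow]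
  have : (5 : ℕ) • j = 0 := by
    revert j; decide
  rw [this]; simp

lemma toCircle_ne_one {j : ZMod 5} (hj : j ≠ 0) : (ZMod.toCircle j : ℂ) ≠ 1 := by
  intro h
  apply hj
  apply ZMod.injective_toCircle
  rw [AddChar.map_zero_eq_one]
  exact Circle.coe_eq_one.mp h

lemma norm_one_of_pow {z : ℂ} (h : z ^ 5 = 1) : ‖z‖ = 1 :=
  (pow_eq_one_iff_of_nonneg (norm_nonneg z) (by norm_num : (5 : ℕ) ≠ 0)).mp
    (by rw [← norm_pow, h, norm_one])

lemma root_eq {z : ℂ} (h : z ^ 5 = 1) (h1 : z ≠ 1) :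
    (2 * z.re) ^ 2 + 2 * z.re - 1 = 0 := by
  have hn : z.re ^ 2 + z.im ^ 2 = 1 := by
    have h2 := norm_one_of_pow h
    have h3 : ‖z‖ ^ 2 = 1 := by rw [h2]; norm_num
    rw [← normSq_eq_norm_sq, normSq_apply] at h3
    nlinarith
  have hs : 1 + z + z ^ 2 + z ^ 3 + z ^ 4 = 0 := by
    have h2 : (z - 1) * (1 + z + z ^ 2 + z ^ 3 + z ^ 4) = 0 := by
      have : (z - 1) * (1 + z + z ^ 2 + z ^ 3 + z ^ 4) = z ^ 5 - 1 := by ring
      rw [this, h, sub_self]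
    rcases mul_eq_zero.mp h2 with h3 | h3
    · exact absurd (sub_eq_zero.mp h3) h1
    · exact h3
  have hc : z * (starRingEnd ℂ) z = 1 := by
    rw [mul_conj, normSq_apply]
    have : z.re * z.re + z.im * z.im = 1 := by nlinarith
    rw [this]; norm_num
  set w := (starRingEnd ℂ) z with hw
  have h4 : w ^ 2 + w + 1 + z + z ^ 2 = 0 := by
    have h5 : w ^ 2 * (1 + z + z ^ 2 + z ^ 3 + z ^ 4) = 0 := by rw [hs, mul_zero]
    have h6 : w ^ 2 * (1 + z + z ^ 2 + z ^ 3 + z ^ 4) =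
        w ^ 2 + w * (z * w) + (z * w) ^ 2 + z * (z * w) ^ 2 + z ^ 2 * (z * w) ^ 2 := by ring
    rw [h6, hc] at h5
    rw [← h5]; ring
  have h7 := congrArg Complex.re h4
  simp only [hw, pow_two, add_re, mul_re, conj_re, conj_im, one_re, zero_re] at h7
  nlinarith

lemma norm_add_sq {z : ℂ} (h : z ^ 5 = 1) : ‖1 + z‖ ^ 2 = 2 + 2 * z.re := by
  have h2 := norm_one_of_pow h
  have h3 : ‖z‖ ^ 2 = 1 := by rw [h2]; norm_num
  rw [← normSq_eq_norm_sq, normSq_apply] at h3 ⊢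
  simp only [add_re, one_re, add_im, one_im]
  nlinarith

lemma norm_sub_sq' {z : ℂ} (h : z ^ 5 = 1) : ‖1 - z‖ ^ 2 = 2 - 2 * z.re := by
  have h2 := norm_one_of_pow h
  have h3 : ‖z‖ ^ 2 = 1 := by rw [h2]; norm_num
  rw [← normSq_eq_norm_sq, normSq_apply] at h3 ⊢
  simp only [sub_re, one_re, sub_im, one_im]
  nlinarith

lemma val_eq {z : ℂ} (h : z ^ 5 = 1) (a : ℤ) (k : ℕ) :
    (a : ℝ) ^ 2 * ‖1 - z‖ ^ 6 * ‖1 + z‖ ^ (2 * k) =
      (a : ℝ) ^ 2 * (2 - 2 * z.re) ^ 3 * (2 + 2 * z.re) ^ k := by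
  rw [show ‖1 - z‖ ^ 6 = (‖1 - z‖ ^ 2) ^ 3 by ring, pow_mul ‖1 + z‖ 2 k, norm_sub_sq' h,
    norm_add_sq h]

/-- the negative root -/
noncomputable def bet : ℝ := -(1 + √5) / 2

lemma sqrt5 : (2.236 : ℝ) < √5 ∧ √5 < 2.237 := by
  constructor
  · rw [Real.lt_sqrt (by norm_num)]; norm_num
  · rw [Real.sqrt_lt' (by norm_num)]; norm_num

lemma roots {c : ℝ} (h : c ^ 2 + c - 1 = 0) : c = bet ∨ c = (√5 - 1) / 2 := by
  have h5 : √5 ^ 2 = 5 := Real.sq_sqrt (by norm_num)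
  have h1 : (c - bet) * (c - (√5 - 1) / 2) = 0 := by
    unfold bet
    nlinarith
  rcases mul_eq_zero.mp h1 with h2 | h2
  · left; linarith
  · right; linarith

lemma bet_mem : 2 * (ZMod.toCircle (2 : ZMod 5) : ℂ).re = bet := by
  have h := ZMod.toCircle_intCast (N := 5) 2
  have h1 : (ZMod.toCircle (2 : ZMod 5) : ℂ) =
      Complex.exp (((4 * Real.pi / 5 : ℝ) : ℂ) * I) := by
    have e : ((2 : ℤ) : ZMod 5) = 2 := rfl
    rw [← e, h]
    congr 1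
    push_cast; ring
  rw [h1, Complex.exp_ofReal_mul_I_re]
  have : 4 * Real.pi / 5 = Real.pi - Real.pi / 5 := by ring
  rw [this, Real.cos_pi_sub, Real.cos_pi_div_five, bet]
  ring

lemma val_ge {k : ℕ} (hk : 2 ≤ k) {r : ℝ} (hr : r ∈ valSet k) :
    (2 - bet) ^ 3 * (2 + bet) ^ k ≤ r := by
  obtain ⟨a, j, ha, hj, rfl⟩ := hr
  have hz := toCircle_pow5 j
  have hz1 := toCircle_ne_one hj
  rw [val_eq hz]
  have hs := sqrt5
  have hb1 : -1.6185 < bet := by unfold bet; linarith [hs.2]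
  have hb2 : bet < -1.618 := by unfold bet; linarith [hs.1]
  have ha1 : (1 : ℝ) ≤ (a : ℝ) ^ 2 := by
    have : (1 : ℤ) ≤ a ^ 2 := by
      have := Int.one_le_abs ha
      nlinarith [sq_abs a]
    exact_mod_cast this
  rcases roots (root_eq hz hz1) with h | h
  · rw [h]
    have h1 : 0 ≤ (2 - bet) ^ 3 * (2 + bet) ^ k := by
      have : 0 ≤ 2 + bet := by linarith
      have : 0 ≤ 2 - bet := by linarith
      positivity
    nlinarith
  · rw [h]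
    set c := (√5 - 1) / 2 with hc
    have hc1 : 0.618 < c := by rw [hc]; linarith [hs.1]
    have hc2 : c < 0.6185 := by rw [hc]; linarith [hs.2]
    obtain ⟨m, rfl⟩ := Nat.exists_eq_add_of_le hk
    have h1 : (2 + bet) ^ (2 + m) ≤ (2 + bet) ^ 2 :=
      pow_le_pow_of_le_one (by linarith) (by linarith) (by omega)
    have h2 : (2 + c) ^ 2 ≤ (2 + c) ^ (2 + m) :=
      pow_le_pow_right₀ (by linarith) (by omega)
    have h3 : (2 - bet) ^ 3 * (2 + bet) ^ 2 ≤ 10 := by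
      have e1 : (2 - bet) ^ 3 ≤ 3.6185 ^ 3 := pow_le_pow_left₀ (by linarith) (by linarith) 3
      have e2 : (2 + bet) ^ 2 ≤ 0.382 ^ 2 := pow_le_pow_left₀ (by linarith) (by linarith) 2
      calc (2 - bet) ^ 3 * (2 + bet) ^ 2 ≤ 3.6185 ^ 3 * 0.382 ^ 2 := by gcongr
        _ ≤ 10 := by norm_num
    have h4 : 10 ≤ (2 - c) ^ 3 * (2 + c) ^ 2 := by
      have e1 : (1.3815 : ℝ) ^ 3 ≤ (2 - c) ^ 3 := pow_le_pow_left₀ (by norm_num) (by linarith) 3
      have e2 : (2.618 : ℝ) ^ 2 ≤ (2 + c) ^ 2 := pow_le_pow_left₀ (by norm_num) (by linarith) 2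
      calc (10 : ℝ) ≤ 1.3815 ^ 3 * 2.618 ^ 2 := by norm_num
        _ ≤ _ := by gcongr
    have p1 : 0 ≤ (2 - bet) ^ 3 := pow_nonneg (by linarith) 3
    have p2 : 0 ≤ (2 - c) ^ 3 := pow_nonneg (by linarith) 3
    have p3 : 0 ≤ (2 + c) ^ (2 + m) := pow_nonneg (by linarith) _
    calc (2 - bet) ^ 3 * (2 + bet) ^ (2 + m) ≤ (2 - bet) ^ 3 * (2 + bet) ^ 2 := by gcongr
      _ ≤ 10 := h3
      _ ≤ (2 - c) ^ 3 * (2 + c) ^ 2 := h4
      _ ≤ (2 - c) ^ 3 * (2 + c) ^ (2 + m) := by gcongr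
      _ ≤ (a : ℝ) ^ 2 * ((2 - c) ^ 3 * (2 + c) ^ (2 + m)) :=
          le_mul_of_one_le_left (mul_nonneg p2 p3) ha1
      _ = _ := by ring

lemma bet_val (k : ℕ) : (2 - bet) ^ 3 * (2 + bet) ^ k ∈ valSet k := by
  refine ⟨1, 2, one_ne_zero, by decide, ?_⟩
  rw [val_eq (toCircle_pow5 2), bet_mem]
  push_cast; ring

/-- the set of values determines `k` -/
theorem valSet_inj {k l : ℕ} (hk : 2 ≤ k) (hl : 2 ≤ l) (h : valSet k = valSet l) : k = l := by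
  have hs := sqrt5
  have hb1 : -1.6185 < bet := by unfold bet; linarith [hs.2]
  have hb2 : bet < -1.618 := by unfold bet; linarith [hs.1]
  have key : ∀ {k l : ℕ}, 2 ≤ k → valSet k = valSet l → ¬ k < l := by
    intro k l hk h hlt
    have h1 := val_ge hk (h ▸ bet_val l)
    have h2 : (2 + bet) ^ l < (2 + bet) ^ k :=
      pow_lt_pow_right_of_lt_one₀ (by linarith) (by linarith) hlt
    have h3 : 0 < (2 - bet) ^ 3 := pow_pos (by linarith) 3
    nlinarith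
  rcases lt_trichotomy k l with h1 | h1 | h1
  · exact absurd h1 (key hk h)
  · exact h1
  · exact absurd h1 (key hl h.symm)

end Pool.Agent.Lib.MP_50ef00_gt.H96
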