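import Pool.Agent.Lib.MP_50ef00_gt.H96.Small
import Pool.Agent.Lib.MP_50ef00_gt.H96.Ineq

/-!
MP_50ef00_gt, negative side: the value of the invariant at the small complexes, and `NEStatement`.
-/

namespace Pool.Agent.Lib.MP_50ef00_gt.H96

open H65 Matrix

/-! ### the case `t = 1` in `P` -/

/-- triples with trivial character and only the Fox coordinate `t` -/
def N1 : Subgroup Trip where
  carrier := {a | rho a.A = 1 ∧ ∀ g, g ≠ 0 → a.F g = 0}
  mul_mem' := by
    rintro a b ⟨ha, ha'⟩ ⟨hb, hb'⟩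
    refine ⟨by rw [Trip.mul_A, rho_mul, ha, hb, one_mul], fun g hg => ?_⟩
    rw [Trip.mul_F, ha' g hg, hb' g hg]; simp
  one_mem' := ⟨by rw [Trip.one_A, rho_one], fun g _ => rfl⟩
  inv_mem' := by
    rintro a ⟨ha, ha'⟩
    refine ⟨by rw [Trip.inv_A, Trip.rho_inv, ha, inv_one], fun g hg => ?_⟩
    rw [Trip.inv_F, ha' g hg]; simp

lemma N1_conj (a b : Trip) (ha : a ∈ N1) : b * a * b⁻¹ ∈ N1 := by
  obtain ⟨ha, ha'⟩ := ha
  have h0 := rho_ne_zero b.A
  refine ⟨?_, fun g hg => ?_⟩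
  · rw [Trip.mul_A, Trip.mul_A, Trip.inv_A, rho_mul, rho_mul, Trip.rho_inv, ha]
    field_simp
  · rw [Trip.mul_F, Trip.mul_F, Trip.inv_F, Trip.mul_A, rho_mul, ha, ha' g hg]
    field_simp
    ring

section tOne

variable {γ : Fin 4 → G2}

lemma R2_mem (h0 : Trip.gen γ 0 ∈ N1) : tval γ R2 ∈ N1 := by
  rw [tval, wval_R2]
  exact N1.mul_mem (N1_conj _ _ h0) (N1.inv_mem (N1.pow_mem h0 6))

lemma R3_mem (h0 : Trip.gen γ 0 ∈ N1) : tval γ R3 ∈ N1 := by
  rw [tval, wval_R3]
  exact N1.mul_mem (N1_conj _ _ h0) (N1.inv_mem (N1.pow_mem h0 6))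

lemma vk_mem (h0 : Trip.gen γ 0 ∈ N1) (k : ℕ) : tval γ (MP_50ef00_gt.vk k) ∈ N1 := by
  rw [tval, wval_vk]
  induction k with
  | zero =>
    rw [vk]
    exact N1.mul_mem (N1_conj _ _ h0) (N1.inv_mem h0)
  | succ k ih =>
    rw [vk]
    exact N1.mul_mem ih (N1_conj _ _ ih)

lemma gen_mem (h : rho (γ 0) = 1) : Trip.gen γ 0 ∈ N1 := by
  refine ⟨h, fun g hg => ?_⟩
  rw [gen_F, Pi.single_eq_of_ne hg]

lemma exists_kernel (A B : Fin 3 → ℂ) :
    ∃ v : Fin 3 → ℂ, v ≠ 0 ∧ ∑ i, A i * v i = 0 ∧ ∑ i, B i * v i = 0 := by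
  let f : (Fin 3 → ℂ) →ₗ[ℂ] (Fin 2 → ℂ) := (Matrix.of ![A, B]).mulVecLin
  have hf : LinearMap.ker f ≠ ⊥ := by
    apply LinearMap.ker_ne_bot_of_finrank_lt
    simp
  obtain ⟨v, hv, hv0⟩ := (Submodule.ne_bot_iff _).mp hf
  refine ⟨v, hv0, ?_, ?_⟩
  · have := congrFun (LinearMap.mem_ker.mp hv) 0
    simpa [f, Matrix.mulVec, dotProduct] using this
  · have := congrFun (LinearMap.mem_ker.mp hv) 1
    simpa [f, Matrix.mulVec, dotProduct] using this

/-- if `t` has trivial character, the small complex is not acyclic -/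
lemma not_isTors_of_rho (h : rho (γ 0) = 1) (k : ℕ) (r : ℂ) :
    ¬ IsTors (small1 γ) (small0 γ k) r := by
  have h0 := gen_mem h
  obtain ⟨v, hv, h1, h2⟩ := exists_kernel
    ![(tval γ R2).F 0, (tval γ R3).F 0, (tval γ (MP_50ef00_gt.vk k)).F 0]
    ![(tval γ R2).Q, (tval γ R3).Q, (tval γ (MP_50ef00_gt.vk k)).Q]
  refine not_isTors γ k r ![0, v 0, v 1, v 2] ?_ ?_ ?_
  · intro hv'
    apply hv
    funext i
    fin_cases i
    · exact congrFun hv' 1
    · exact congrFun hv' 2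
    · exact congrFun hv' 3
  · intro g
    by_cases hg : g = 0
    · subst hg
      simp only [Fin.sum_univ_succ] at h1 ⊢
      simpa [rels] using h1
    · have e2 := (R2_mem h0).2 g hg
      have e3 := (R3_mem h0).2 g hg
      have e4 := (vk_mem h0 k).2 g hg
      simp [Fin.sum_univ_succ, rels, e2, e3, e4]
  · simp only [Fin.sum_univ_succ] at h2 ⊢
    simpa [rels] using h2

end tOne

/-! ### the affine action -/

lemma toCircle_one_two : (ZMod.toCircle (1 : ZMod 2) : ℂ) = -1 := by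
  have h := ZMod.toCircle_intCast (N := 2) 1
  have e : ((1 : ℤ) : ZMod 2) = 1 := rfl
  rw [e] at h
  rw [h]
  have : (2 * (Real.pi : ℂ) * Complex.I * ((1 : ℤ) : ℂ) / ((2 : ℕ) : ℂ)) = Real.pi * Complex.I := by
    push_cast; ring
  rw [this, Complex.exp_pi_mul_I]

lemma toCircle_one_two' : ZMod.toCircle (1 : ZMod 2) = -1 := by
  apply Circle.ext
  rw [toCircle_one_two]; simp

/-- the exponent of an element of `C₅` -/
def vT (a : Gf true) : ZMod 5 := Multiplicative.toAdd a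

lemma affP_oT (a : Gf true) : affP (oT a) = ⟨ZMod.toCircle (vT a), 0⟩ := by
  have : affP (oT a) = rotHom 5 0 a := Monoid.CoprodI.lift_of _ a
  rw [this]
  ext1
  · rfl
  · change (1 - (ZMod.toCircle (vT a) : ℂ)) * 0 = 0
    rw [mul_zero]

lemma affP_yP : affP yP = ⟨-1, 1⟩ := by
  have : affP yP = rotHom 2 (1 / 2) yg := Monoid.CoprodI.lift_of _ yg
  rw [this]
  ext1
  · change ZMod.toCircle (1 : ZMod 2) = -1
    exact toCircle_one_two'
  · change (1 - (ZMod.toCircle (1 : ZMod 2) : ℂ)) * (1 / 2) = 1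
    rw [toCircle_one_two]; norm_num

lemma epsP_oT (a : Gf true) : epsP (oT a) = 1 := Monoid.CoprodI.lift_of _ a

lemma epsP_yP : epsP yP = -1 := by
  have : epsP yP = sgn2 yg := Monoid.CoprodI.lift_of _ yg
  rw [this]; decide

lemma conj_oT (h : P) (a : Gf true) :
    affP (h * oT a * h⁻¹) = ⟨ZMod.toCircle (vT a),
      (1 - (ZMod.toCircle (vT a) : ℂ)) * (affP h).tr⟩ := by
  rw [map_mul, map_mul, map_inv, affP_oT]
  ext1
  · simp only [Aff.mul_lin, Aff.inv_lin]
    rw [mul_comm (affP h).lin, mul_assoc, mul_inv_cancel, mul_one]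
  · simp only [Aff.mul_tr, Aff.mul_lin, Aff.inv_tr, Circle.coe_mul, Circle.coe_inv]
    have := Circle.coe_ne_zero (affP h).lin
    field_simp
    ring

lemma conj_yP (h : P) :
    affP (h * yP * h⁻¹) = ⟨-1, 2 * (affP h).tr + (affP h).lin⟩ := by
  rw [map_mul, map_mul, map_inv, affP_yP]
  ext1
  · simp only [Aff.mul_lin, Aff.inv_lin]
    rw [mul_comm (affP h).lin, mul_assoc, mul_inv_cancel, mul_one]
  · simp only [Aff.mul_tr, Aff.mul_lin, Aff.inv_tr, Circle.coe_mul, Circle.coe_inv]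
    have := Circle.coe_ne_zero (affP h).lin
    have e : ((-1 : Circle) : ℂ) = -1 := by simp
    rw [e]
    field_simp
    ring

lemma eps_conj (h g : P) : epsP (h * g * h⁻¹) = epsP g := by
  rw [map_mul, map_mul, map_inv, mul_comm (epsP h), mul_assoc, mul_inv_cancel, mul_one]

/-- standard form from the classification -/
lemma std_of (γ : Fin 4 → PZ) (h : P) (a c : Gf true) (ha : a ≠ 1)
    (h0 : (γ 0).p = h * oT a * h⁻¹) (h1 : (γ 1).p = 1) (h2 : (γ 2).p = h * yP * h⁻¹)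
    (h3 : (γ 3).p = h * oT c * h⁻¹) (hn : (γ 0).n = 0) :
    Std (fun g => toG2 (γ g)) (ZMod.toCircle (vT a))
      (ZMod.toCircle (vT c)) ((γ 1).n) ((γ 2).n)
      ((1 - (ZMod.toCircle (vT a) : ℂ)) * (affP h).tr)
      (2 * (affP h).tr + (affP h).lin) := by
  have eps0 : epsP (γ 0).p = 1 := by rw [h0, eps_conj, epsP_oT]
  have eps2 : epsP (γ 2).p = -1 := by rw [h2, eps_conj, epsP_yP]
  have eps3 : epsP (γ 3).p = 1 := by rw [h3, eps_conj, epsP_oT]
  have ha' : vT a ≠ 0 := ha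
  constructor
  · change (⟨signC (epsP (γ 0).p), ((γ 0).n : ℂ)⟩ : Aff) = 1
    rw [eps0, hn]
    ext1 <;> simp
  · have hpow : ∀ n : ℕ, ((γ 0) ^ n).n = 0 := by
      intro n
      induction n with
      | zero => simp
      | succ n ih => rw [pow_succ, PZ.mul_n, ih, hn]; simp
    have h5 : γ 0 ^ 5 = 1 := by
      ext1
      · have e : (γ 0 ^ 5).p = (γ 0).p ^ 5 := map_pow pHom (γ 0) 5
        rw [e, h0, conj_pow, ← map_pow, pow5, map_one, PZ.one_p]; group
      · rw [hpow]; simp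
    rw [← map_pow, h5, map_one]
  · change ((signC (epsP (γ 0).p) * (affP (γ 0).p).lin : Circle) : ℂ) = _
    rw [eps0, map_one, one_mul, h0, conj_oT]
  · exact toCircle_ne_one ha'
  · change (affP (γ 0).p).tr = _
    rw [h0, conj_oT]
  · change ((⟨signC (epsP (γ 1).p), ((γ 1).n : ℂ)⟩ : Aff), affP (γ 1).p) = _
    rw [h1, map_one, map_one, map_one]
  · change ((⟨signC (epsP (γ 2).p), ((γ 2).n : ℂ)⟩ : Aff), affP (γ 2).p) = _
    rw [eps2, h2, conj_yP]
    have e : signC (-1) = -1 := by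
      have : (-1 : ℤˣ) ≠ 1 := by decide
      simp [signC, this]
    rw [e]
  · change ((signC (epsP (γ 3).p) * (affP (γ 3).p).lin : Circle) : ℂ) = _
    rw [eps3, map_one, one_mul, h3, conj_oT]
  · rw [← map_mul, ← map_mul]
    congr 1
    ext1
    · rw [PZ.mul_p, PZ.mul_p, h0, h3]
      have : oT c * oT a = oT a * oT c := by rw [← map_mul, ← map_mul, mul_comm]
      calc h * oT c * h⁻¹ * (h * oT a * h⁻¹) = h * (oT c * oT a) * h⁻¹ := by group
        _ = h * (oT a * oT c) * h⁻¹ := by rw [this]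
        _ = _ := by group
    · rw [PZ.mul_n, PZ.mul_n, hn, eps0]; simp

/-- the determinant in standard form -/
lemma det_std (z τ lam a q₂ q₄ : ℂ) (k : ℕ) :
    (MM z a ((1 - z) * τ) (2 * τ + lam) q₂ q₄ k).det =
      4 * a * lam * (1 - z) ^ 4 * (1 + z) ^ k := by
  rw [det_MM]; ring

lemma det_std_ne (z τ lam a q₂ q₄ : ℂ) (k : ℕ) (hl : lam ≠ 0) (ha : a ≠ 0) (hz : z ≠ 1)
    (hz' : 1 + z ≠ 0) : (MM z a ((1 - z) * τ) (2 * τ + lam) q₂ q₄ k).det ≠ 0 := by
  rw [det_std]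
  exact mul_ne_zero (mul_ne_zero (mul_ne_zero (mul_ne_zero (by norm_num) ha) hl)
    (pow_ne_zero _ (sub_ne_zero.mpr hz.symm))) (pow_ne_zero _ hz')

lemma one_add_toCircle_ne {j : ZMod 5} : 1 + (ZMod.toCircle j : ℂ) ≠ 0 := by
  intro h
  have h1 : (ZMod.toCircle j : ℂ) = -1 := by
    rw [add_comm] at h; exact eq_neg_of_add_eq_zero_left h
  have h2 := toCircle_pow5 j
  rw [h1] at h2
  norm_num at h2

lemma value_eq (z lam : ℂ) (hl : ‖lam‖ = 1) (hz : z ≠ 1) (hz' : 1 + z ≠ 0) (a : ℤ) (ha : a ≠ 0)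
    (k : ℕ) : ((‖z - 1‖ ^ 2 : ℝ) : ℂ) *
      ((‖(4 * (a : ℂ) * lam * (1 - z) ^ 4 * (1 + z) ^ k)‖ ^ 2 : ℝ) : ℂ)⁻¹ =
      (((16 * ((a : ℝ) ^ 2 * ‖1 - z‖ ^ 6 * ‖1 + z‖ ^ (2 * k)))⁻¹ : ℝ) : ℂ) := by
  have e1 : ‖z - 1‖ = ‖1 - z‖ := norm_sub_rev z 1
  have e2 : ‖1 - z‖ ≠ 0 := by
    rw [norm_ne_zero_iff]; exact sub_ne_zero.mpr hz.symm
  have e3 : ‖1 + z‖ ≠ 0 := by
    rw [norm_ne_zero_iff]; exact hz'
  have e4 : (a : ℝ) ≠ 0 := by exact_mod_cast ha
  rw [← Complex.ofReal_inv, ← Complex.ofReal_mul]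
  congr 1
  rw [norm_mul, norm_mul, norm_mul, norm_mul, norm_pow, norm_pow, hl, e1]
  have e5 : ‖(a : ℂ)‖ ^ 2 = (a : ℝ) ^ 2 := by
    rw [Complex.norm_intCast, sq_abs]
  have e6 : ‖(4 : ℂ)‖ = 4 := by simp
  rw [e6]
  have e7 : (4 * ‖(a : ℂ)‖ * 1 * ‖1 - z‖ ^ 4 * ‖1 + z‖ ^ k) ^ 2 =
      16 * (a : ℝ) ^ 2 * ‖1 - z‖ ^ 8 * ‖1 + z‖ ^ (2 * k) := by
    rw [← e5, mul_comm 2 k, pow_mul]; ring
  rw [e7]
  field_simp

/-- the invariant of the small complexes -/
theorem TSmall_eq (k : ℕ) :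
    TSmall k = {r | ∃ s ∈ valSet k, r = (((16 * s)⁻¹ : ℝ) : ℂ)} := by
  ext r
  constructor
  · rintro ⟨γ, hrel, hgen, hT⟩
    -- relations in `P`
    have hp : ∀ w, wval γ w = 1 → wval (fun g => (γ g).p) w = 1 := by
      intro w hw
      have := wval_map γ pHom w
      rw [hw, map_one] at this
      exact this
    have r1 := hp _ (hrel 0)
    have r2 := hp _ (hrel 1)
    have r3 := hp _ (hrel 2)
    have r4 := hp _ (hrel 3)
    simp only [rels, Matrix.cons_val_zero, Matrix.cons_val_one, Matrix.cons_val] at r1 r2 r3 r4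
    rw [wval_R1] at r1
    rw [wval_R2] at r2
    rw [wval_R3] at r3
    rw [wval_vk] at r4
    have r2' := mul_inv_eq_one.mp r2
    have r3' := mul_inv_eq_one.mp r3
    by_cases ht : (γ 0).p = 1
    · exfalso
      refine not_isTors_of_rho ?_ k r hT
      change ((signC (epsP (γ 0).p) * (affP (γ 0).p).lin : Circle) : ℂ) = 1
      rw [ht]; simp
    have hgen' : Subgroup.closure {(γ 0).p, (γ 1).p, (γ 2).p, (γ 3).p} = ⊤ := by
      rw [← hgen]
      congr 1
      ext p
      simp only [Set.mem_insert_iff, Set.mem_singleton_iff, Set.mem_range]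
      constructor
      · rintro (h | h | h | h)
        · exact ⟨0, h.symm⟩
        · exact ⟨1, h.symm⟩
        · exact ⟨2, h.symm⟩
        · exact ⟨3, h.symm⟩
      · rintro ⟨i, rfl⟩
        fin_cases i <;> simp
    obtain ⟨h, a, c, ha, h0, h1, h2, h3⟩ := classify _ _ _ _ k r1 r2' r3' r4 hgen' ht
    -- the integer part of `t` vanishes
    have hn : (γ 0).n = 0 := by
      have q2 := hrel 1
      simp only [rels, Matrix.cons_val_one, Matrix.cons_val_zero] at q2
      rw [wval_R2] at q2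
      have q2' := congrArg PZ.n (mul_inv_eq_one.mp q2)
      have eps0 : epsP (γ 0).p = 1 := by rw [h0, eps_conj, epsP_oT]
      have eps2 : epsP (γ 2).p = -1 := by rw [h2, eps_conj, epsP_yP]
      have hpow : ∀ m : ℕ, epsP (γ 0 ^ m).p = 1 ∧ ((γ 0) ^ m).n = m * (γ 0).n := by
        intro m
        induction m with
        | zero => simp
        | succ m ih =>
          rw [pow_succ, PZ.mul_p, map_mul, ih.1, eps0, PZ.mul_n, ih.1, ih.2]
          refine ⟨by simp, ?_⟩
          push_cast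
          ring
      rw [(hpow 6).2, pow_two] at q2'
      simp only [PZ.mul_n, PZ.mul_p, PZ.inv_n, map_mul, eps0, eps2] at q2'
      norm_num at q2'
      linarith
    have hs := std_of γ h a c ha h0 h1 h2 h3 hn
    have ha' : vT a ≠ 0 := ha
    by_cases hx : (γ 1).n = 0
    · exfalso
      set z : ℂ := (ZMod.toCircle (vT a) : ℂ) with hz
      refine not_isTors _ k r ![(1 - z) ^ 2, 0, -2, 0] ?_ ?_ ?_ hT
      · intro hv
        have := congrFun hv 2
        simp at this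
      · intro g
        simp only [Fin.sum_univ_succ, rels]
        simp [hs.R1_F, hs.R3_F]
        ring
      · simp only [Fin.sum_univ_succ, rels]
        simp [hs.R1_Q, hs.R3_Q, hx]
    · have hz1 : (ZMod.toCircle (vT a) : ℂ) ≠ 1 := toCircle_ne_one ha'
      have hz2 : 1 + (ZMod.toCircle (vT a) : ℂ) ≠ 0 := one_add_toCircle_ne
      have hdet : (MM (ZMod.toCircle (vT a)) ((γ 1).n : ℂ)
          ((1 - (ZMod.toCircle (vT a) : ℂ)) * (affP h).tr)
          (2 * (affP h).tr + (affP h).lin) (tval (fun g => toG2 (γ g)) R2).Q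
          (tval (fun g => toG2 (γ g)) (MP_50ef00_gt.vk k)).Q k).det ≠ 0 := by
        exact det_std_ne _ _ _ _ _ _ _ (Circle.coe_ne_zero _) (by exact_mod_cast hx) hz1 hz2
      have hv := hs.isTors k hdet
      rw [det_std, value_eq _ _ (Circle.norm_coe _) hz1 hz2 _ hx] at hv
      refine ⟨_, ⟨(γ 1).n, vT a, hx, ha', rfl⟩, ?_⟩
      exact hT.unique hv
  · rintro ⟨s, ⟨m, j, hm, hj, rfl⟩, rfl⟩
    have hj' : (Multiplicative.ofAdd j : Gf true) ≠ 1 := hj
    let γ : Fin 4 → PZ := ![⟨oT (Multiplicative.ofAdd j), 0⟩, ⟨1, m⟩, ⟨yP, 0⟩, ⟨1, 0⟩]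
    have hs := std_of γ 1 (Multiplicative.ofAdd j) 1 hj' (by simp [γ]) rfl (by simp [γ])
      (by simp [γ]) rfl
    have hz1 : (ZMod.toCircle j : ℂ) ≠ 1 := toCircle_ne_one hj
    have hz2 : 1 + (ZMod.toCircle j : ℂ) ≠ 0 := one_add_toCircle_ne
    refine ⟨γ, ?_, ?_, ?_⟩
    · have g0 : γ 0 = ⟨oT (Multiplicative.ofAdd j), 0⟩ := rfl
      have g1 : γ 1 = ⟨1, m⟩ := rfl
      have g2 : γ 2 = ⟨yP, 0⟩ := rfl
      have g3 : γ 3 = 1 := rfl
      have t5 : γ 0 ^ 5 = 1 := by
        have hpow : ∀ n : ℕ, ((γ 0) ^ n).n = 0 := by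
          intro n
          induction n with
          | zero => simp
          | succ n ih => rw [pow_succ, PZ.mul_n, ih, g0]; simp
        ext1
        · have e : (γ 0 ^ 5).p = (γ 0).p ^ 5 := map_pow pHom (γ 0) 5
          rw [e, g0, ← map_pow, pow5, map_one, PZ.one_p]
        · rw [hpow]; simp
      have t6 : γ 0 ^ 6 = γ 0 := by rw [show 6 = 5 + 1 by norm_num, pow_succ, t5, one_mul]
      have y2 : γ 2 ^ 2 = 1 := by
        rw [pow_two, g2]
        ext1
        · exact yP_sq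
        · simp
      have xt : γ 1 * γ 0 = γ 0 * γ 1 := by
        rw [g0, g1]
        ext1
        · simp
        · simp [epsP_oT]
      have yx : γ 2 * γ 1 * (γ 2)⁻¹ * γ 1 = 1 := by
        rw [g1, g2]
        ext1
        · simp
        · simp [epsP_yP]
      intro i
      fin_cases i
      · change wval γ R1 = 1
        rw [wval_R1, yx]
      · change wval γ R2 = 1
        rw [wval_R2, y2, t6]; group
      · change wval γ R3 = 1
        rw [wval_R3, xt, t6]; group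
      · change wval γ (MP_50ef00_gt.vk k) = 1
        rw [wval_vk, g3]
        exact vk_eq_one (Commute.one_left _) k
    · rw [eq_top_iff]
      intro p _
      have m0 : oT (Multiplicative.ofAdd j) ∈ Subgroup.closure (Set.range fun g => (γ g).p) :=
        Subgroup.subset_closure ⟨0, rfl⟩
      have m2 : yP ∈ Subgroup.closure (Set.range fun g => (γ g).p) :=
        Subgroup.subset_closure ⟨2, rfl⟩
      have mT : ∀ a : Gf true, oT a ∈ Subgroup.closure (Set.range fun g => (γ g).p) := by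
        intro a
        have e : ∀ (j a : ZMod 5), j ≠ 0 → ∃ n : ℕ, n • j = a := by
          intro j a hj
          refine ⟨(a * j⁻¹).val, ?_⟩
          rw [nsmul_eq_mul, ZMod.natCast_zmod_val, mul_assoc]
          have : Fact (Nat.Prime 5) := ⟨by norm_num⟩
          rw [inv_mul_cancel₀ hj, mul_one]
        obtain ⟨n, hn⟩ := e j (vT a) hj
        have : a = (Multiplicative.ofAdd j : Gf true) ^ n := by
          apply Multiplicative.toAdd.injective
          exact hn.symm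
        rw [this, map_pow]
        exact Subgroup.pow_mem _ m0 n
      induction p using Monoid.CoprodI.induction_on with
      | one => exact one_mem _
      | of i a =>
        cases i with
        | true => exact mT a
        | false =>
          by_cases ha : a = 1
          · rw [ha, map_one]; exact one_mem _
          · rw [eq_yg a ha]; exact m2
      | mul x y hx hy => exact mul_mem (hx trivial) (hy trivial)
    · have hvj : vT (Multiplicative.ofAdd j : Gf true) = j := rfl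
      rw [hvj] at hs
      have hm' : (γ 1).n ≠ 0 := hm
      have hdet : (MM (ZMod.toCircle j) ((γ 1).n : ℂ)
          ((1 - (ZMod.toCircle j : ℂ)) * (affP (1 : P)).tr)
          (2 * (affP (1 : P)).tr + (affP (1 : P)).lin) (tval (fun g => toG2 (γ g)) R2).Q
          (tval (fun g => toG2 (γ g)) (MP_50ef00_gt.vk k)).Q k).det ≠ 0 :=
        det_std_ne _ _ _ _ _ _ _ (Circle.coe_ne_zero _) (by exact_mod_cast hm') hz1 hz2
      have hv := hs.isTors k hdet
      rw [det_std, value_eq _ _ (Circle.norm_coe _) hz1 hz2 _ hm'] at hv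
      exact hv

theorem ne_statement : NEStatement := by
  intro k l hk hl h
  apply valSet_inj hk hl
  rw [TSmall_eq, TSmall_eq] at h
  have key : ∀ {k l : ℕ}, {r : ℂ | ∃ s ∈ valSet k, r = (((16 * s)⁻¹ : ℝ) : ℂ)} =
      {r : ℂ | ∃ s ∈ valSet l, r = (((16 * s)⁻¹ : ℝ) : ℂ)} → valSet k ⊆ valSet l := by
    intro k l h s hs
    have h1 : (((16 * s)⁻¹ : ℝ) : ℂ) ∈ {r : ℂ | ∃ s ∈ valSet k, r = (((16 * s)⁻¹ : ℝ) : ℂ)} :=
      ⟨s, hs, rfl⟩
    rw [h] at h1
    obtain ⟨s', hs', he⟩ := h1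
    have h2 : (16 * s)⁻¹ = (16 * s')⁻¹ := by exact_mod_cast he
    have h3 := inv_injective h2
    have : s = s' := by linarith
    rw [this]; exact hs'
  exact Set.Subset.antisymm (key h) (key h.symm)

end Pool.Agent.Lib.MP_50ef00_gt.H96
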