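import Mathlib

/-!
MP_50ef00_gt, negative side, module NE: combinatorics of reduced words in a free product.

* `torsion_conj`: an element of finite order is conjugate to an element of a factor.
* `mem_range_of_conj`: if `a ≠ 1` is in a factor and `g a g⁻¹` is in a factor, it is the same factor
  and `g` is in it.
-/

set_option linter.unusedSectionVars false

namespace Pool.Agent.Lib.MP_50ef00_gt.H96

open Monoid Monoid.CoprodI

section general

variable {ι : Type} [DecidableEq ι] {G : ι → Type} [∀ i, Group (G i)] [∀ i, DecidableEq (G i)]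

/-- length of a reduced word -/
def nlen {i j : ι} (w : NeWord G i j) : ℕ := w.toList.length

@[simp] lemma nlen_singleton {i : ι} (x : G i) (h : x ≠ 1) : nlen (NeWord.singleton x h) = 1 := rfl

@[simp] lemma nlen_append {i j k l : ι} (w₁ : NeWord G i j) (h : j ≠ k) (w₂ : NeWord G k l) :
    nlen (NeWord.append w₁ h w₂) = nlen w₁ + nlen w₂ := by
  simp [nlen]

lemma nlen_pos {i j : ι} (w : NeWord G i j) : 1 ≤ nlen w := by
  rw [nlen, Nat.one_le_iff_ne_zero]
  intro h
  exact w.toList_ne_nil (List.length_eq_zero_iff.mp h)

@[simp] lemma nlen_inv {i j : ι} (w : NeWord G i j) : nlen w.inv = nlen w := by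
  induction w with
  | singleton x h => rfl
  | append w₁ h w₂ ih₁ ih₂ => rw [NeWord.inv, nlen_append, nlen_append, ih₁, ih₂, add_comm]

lemma toList_eq_of_prod_eq {i j k l : ι} (w : NeWord G i j) (w' : NeWord G k l)
    (h : w.prod = w'.prod) : w.toList = w'.toList := by
  have h1 : w.toWord = w'.toWord := by
    have h2 : Function.Injective (Word.prod : Word G → CoprodI G) := by
      intro a b hab
      exact Word.equiv.symm.injective hab
    exact h2 h
  exact congrArg Word.toList h1

lemma nlen_eq_of_prod_eq {i j k l : ι} (w : NeWord G i j) (w' : NeWord G k l)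
    (h : w.prod = w'.prod) : nlen w = nlen w' := by
  rw [nlen, nlen, toList_eq_of_prod_eq w w' h]

lemma prod_ne_one {i j : ι} (w : NeWord G i j) : w.prod ≠ 1 := by
  intro h
  have h2 : Function.Injective (Word.prod : Word G → CoprodI G) := by
    intro a b hab
    exact Word.equiv.symm.injective hab
  have h1 : w.toWord = Word.empty := h2 (by rw [Word.prod_empty]; exact h)
  exact w.toList_ne_nil (congrArg Word.toList h1)

lemma exists_neWord (g : CoprodI G) (hg : g ≠ 1) :
    ∃ (i j : ι) (w : NeWord G i j), w.prod = g := by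
  have h : Word.equiv g ≠ Word.empty := by
    intro h
    apply hg
    have := congrArg Word.equiv.symm h
    rw [Equiv.symm_apply_apply] at this
    rw [this]
    exact Word.prod_empty
  obtain ⟨i, j, w, hw⟩ := NeWord.of_word _ h
  refine ⟨i, j, w, ?_⟩
  have := congrArg Word.equiv.symm hw
  rw [Equiv.symm_apply_apply] at this
  exact this

lemma fst_eq_of_prod_eq {i j k l : ι} (w : NeWord G i j) (w' : NeWord G k l)
    (h : w.prod = w'.prod) : i = k := by
  have h1 := toList_eq_of_prod_eq w w' h
  have h2 := w.toList_head?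
  have h3 := w'.toList_head?
  rw [h1, h3] at h2
  have h4 := Option.some.inj h2
  exact (congrArg Sigma.fst h4).symm

lemma nlen_one {i j : ι} (w : NeWord G i j) (h : nlen w = 1) :
    ∃ a : G i, a ≠ 1 ∧ w.prod = of a ∧ i = j := by
  cases w with
  | singleton x hx => exact ⟨x, hx, NeWord.prod_singleton x hx, rfl⟩
  | append w₁ hne w₂ =>
    rw [nlen_append] at h
    have := nlen_pos w₁
    have := nlen_pos w₂
    omega

lemma split_head {i j : ι} (w : NeWord G i j) (h : 2 ≤ nlen w) :
    ∃ (a : G i) (k : ι) (u : NeWord G k j), a ≠ 1 ∧ k ≠ i ∧ w.prod = of a * u.prod ∧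
      nlen u + 1 = nlen w := by
  induction w with
  | singleton x hx => simp at h
  | @append i j k l w₁ hne w₂ ih₁ ih₂ =>
    by_cases h1 : nlen w₁ = 1
    · obtain ⟨a, ha, hw, rfl⟩ := nlen_one w₁ h1
      exact ⟨a, k, w₂, ha, hne.symm, by rw [NeWord.append_prod, hw], by
        rw [nlen_append, h1, add_comm]⟩
    · have h2 : 2 ≤ nlen w₁ := by have := nlen_pos w₁; omega
      obtain ⟨a, k', u, ha, hk, hw, hl⟩ := ih₁ h2
      refine ⟨a, k', NeWord.append u hne w₂, ha, hk, ?_, ?_⟩
      · rw [NeWord.append_prod, NeWord.append_prod, hw, mul_assoc]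
      · rw [nlen_append, nlen_append, ← hl]; omega

lemma split_last {i j : ι} (w : NeWord G i j) (h : 2 ≤ nlen w) :
    ∃ (b : G j) (k : ι) (u : NeWord G i k), b ≠ 1 ∧ k ≠ j ∧ w.prod = u.prod * of b ∧
      nlen u + 1 = nlen w := by
  induction w with
  | singleton x hx => simp at h
  | @append i j k l w₁ hne w₂ ih₁ ih₂ =>
    by_cases h1 : nlen w₂ = 1
    · obtain ⟨b, hb, hw, rfl⟩ := nlen_one w₂ h1
      exact ⟨b, j, w₁, hb, hne, by rw [NeWord.append_prod, hw], by
        rw [nlen_append, h1]⟩
    · have h2 : 2 ≤ nlen w₂ := by have := nlen_pos w₂; omega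
      obtain ⟨b, k', u, hb, hk, hw, hl⟩ := ih₂ h2
      refine ⟨b, k', NeWord.append w₁ hne u, hb, hk, ?_, ?_⟩
      · rw [NeWord.append_prod, NeWord.append_prod, hw, mul_assoc]
      · rw [nlen_append, nlen_append, ← hl]; omega

/-- a reduced word whose ends are in different factors has infinite order -/
lemma pow_ne_one {i j : ι} (hij : i ≠ j) (w : NeWord G i j) (n : ℕ) (hn : 1 ≤ n) :
    w.prod ^ n ≠ 1 := by
  have h : ∃ w' : NeWord G i j, w'.prod = w.prod ^ n := by
    induction n, hn using Nat.le_induction with
    | base => exact ⟨w, by rw [pow_one]⟩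
    | succ m hm ih =>
      obtain ⟨w', hw'⟩ := ih
      exact ⟨NeWord.append w' hij.symm w, by rw [NeWord.append_prod, hw', pow_succ]⟩
  obtain ⟨w', hw'⟩ := h
  rw [← hw']
  exact prod_ne_one w'

/-- elements of finite order are conjugate to elements of the factors -/
theorem torsion_conj (g : CoprodI G) (hg : g ≠ 1) (n : ℕ) (hn : 1 ≤ n) (h : g ^ n = 1) :
    ∃ (i : ι) (a : G i) (c : CoprodI G), a ≠ 1 ∧ g = c * of a * c⁻¹ := by
  obtain ⟨i, j, w, hw⟩ := exists_neWord g hg
  have key : ∀ (m : ℕ) (i j : ι) (w : NeWord G i j), nlen w = m → w.prod ^ n = 1 →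
      ∃ (i : ι) (a : G i) (c : CoprodI G), a ≠ 1 ∧ w.prod = c * of a * c⁻¹ := by
    intro m
    induction m using Nat.strong_induction_on with
    | _ m ih =>
      intro i j w hm hw
      by_cases hij : i = j
      · subst hij
        by_cases h1 : nlen w = 1
        · obtain ⟨a, ha, hwa, _⟩ := nlen_one w h1
          exact ⟨i, a, 1, ha, by simp [hwa]⟩
        · have h2 : 2 ≤ nlen w := by have := nlen_pos w; omega
          obtain ⟨a, k, u, ha, hk, hwu, hl⟩ := split_head w h2
          have h3 : 2 ≤ nlen u := by
            by_contra hlt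
            have h4 : nlen u = 1 := by have := nlen_pos u; omega
            obtain ⟨_, _, _, h5⟩ := nlen_one u h4
            exact hk h5
          obtain ⟨b, l, v, hb, hl', huv, hlv⟩ := split_last u h3
          have hprod : w.prod = of a * v.prod * of b := by rw [hwu, huv, mul_assoc]
          by_cases hba : b * a = 1
          · have hconj : v.prod = (of a)⁻¹ * w.prod * of a := by
              rw [hprod]
              have : of b * of a = (1 : CoprodI G) := by rw [← map_mul, hba, map_one]
              calc v.prod = v.prod * 1 := by rw [mul_one]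
                _ = v.prod * (of b * of a) := by rw [this]
                _ = _ := by group
            have hvn : v.prod ^ n = 1 := by
              have : v.prod = (of a)⁻¹ * w.prod * ((of a)⁻¹)⁻¹ := by rw [hconj, inv_inv]
              rw [this, conj_pow, hw]; group
            obtain ⟨i', a', c, ha', hv⟩ := ih (nlen v) (by omega) k l v rfl hvn
            refine ⟨i', a', of a * c, ha', ?_⟩
            have : w.prod = of a * v.prod * (of a)⁻¹ := by rw [hconj]; group
            rw [this, hv]; group
          · exfalso
            let v' := NeWord.append v hl' (NeWord.singleton (b * a) hba)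
            have hconj : v'.prod = (of a)⁻¹ * w.prod * ((of a)⁻¹)⁻¹ := by
              simp only [v', NeWord.append_prod, NeWord.prod_singleton]
              rw [hprod, map_mul]; group
            refine pow_ne_one hk v' n hn ?_
            rw [hconj, conj_pow, hw]; group
      · exact absurd hw (pow_ne_one hij w n hn)
  rw [← hw] at h
  obtain ⟨i', a, c, ha, hc⟩ := key _ i j w rfl h
  exact ⟨i', a, c, ha, by rw [← hw, hc]⟩

/-- malnormality of the factors -/
theorem mem_range_of_conj {i j : ι} (a : G i) (ha : a ≠ 1) (b : G j) (g : CoprodI G)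
    (h : g * of a * g⁻¹ = of b) : g ∈ (of : G i →* CoprodI G).range := by
  by_cases hg : g = 1
  · rw [hg]; exact one_mem _
  obtain ⟨k, l, w, hw⟩ := exists_neWord g hg
  have hb : b ≠ 1 := by
    intro hb
    rw [hb, map_one] at h
    apply ha
    have h1 : of a = (1 : CoprodI G) := by
      calc of a = g⁻¹ * (g * of a * g⁻¹) * g := by group
        _ = 1 := by rw [h]; group
    exact of_injective i (by rw [h1, map_one])
  have key : ∀ (k l : ι) (w : NeWord G k l) (a : G i), a ≠ 1 → l ≠ i →
      w.prod * of a * w.prod⁻¹ ≠ of b := by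
    intro k l w a ha hl heq
    let W := NeWord.append (NeWord.append w hl (NeWord.singleton a ha)) hl.symm w.inv
    have h1 : W.prod = (NeWord.singleton b hb).prod := by
      simp only [W, NeWord.append_prod, NeWord.prod_singleton, NeWord.inv_prod]
      exact heq
    have h2 := nlen_eq_of_prod_eq _ _ h1
    simp only [W, nlen_append, nlen_singleton, nlen_inv] at h2
    have := nlen_pos w
    omega
  by_cases hl : l = i
  · subst hl
    by_cases h1 : nlen w = 1
    · obtain ⟨c, _, hc, rfl⟩ := nlen_one w h1
      exact ⟨c, by rw [← hw, hc]⟩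
    · exfalso
      have h2 : 2 ≤ nlen w := by have := nlen_pos w; omega
      obtain ⟨c, k', u, hc, hk, hwu, _⟩ := split_last w h2
      refine key k k' u (c * a * c⁻¹) ?_ hk ?_
      · intro h3
        apply ha
        calc a = c⁻¹ * (c * a * c⁻¹) * c := by group
          _ = 1 := by rw [h3]; group
      · rw [← h, ← hw, hwu, map_mul, map_mul, map_inv]; group
  · exact absurd (by rw [hw]; exact h) (key k l w a ha hl)

end general

end Pool.Agent.Lib.MP_50ef00_gt.H96
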