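import Pool.Agent.Lib.MP_50ef00_gt.H96.Std

/-!
MP_50ef00_gt, negative side: torsion of the small complex.
-/

namespace Pool.Agent.Lib.MP_50ef00_gt.H96

open H65 Matrix

/-! ### general facts on torsion -/

lemma isTors_zero_left {n : Type*} [Fintype n] [DecidableEq n] (M : Matrix n n ℂ)
    (hM : M.det ≠ 0) : IsTors (0 : Matrix n n ℂ) M ((‖M.det‖ ^ 2 : ℝ) : ℂ)⁻¹ := by
  have hu : IsUnit M.det := isUnit_iff_ne_zero.mpr hM
  refine ⟨by simp, by simp, M⁻¹, 0, ⟨?_, ?_, by simp, by simp⟩, ?_⟩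
  · rw [Matrix.zero_mul, zero_add, nonsing_inv_mul _ hu]
  · rw [Matrix.zero_mul, add_zero, mul_nonsing_inv _ hu]
  · rw [zero_add, det_mul, det_conjTranspose, det_nonsing_inv, Ring.inverse_eq_inv']
    have : star (M.det)⁻¹ * (M.det)⁻¹ = (star M.det * M.det)⁻¹ := by
      rw [mul_inv, star_inv₀]
    rw [this]
    congr 1
    have := Complex.conj_mul' M.det
    rw [Complex.ofReal_pow]
    simpa using this

lemma isTors_unit (c : ℂ) (hc : c ≠ 0) :
    IsTors (Matrix.of fun (_ : Unit) (_ : Unit) => c) (0 : Matrix Unit Unit ℂ)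
      ((‖c‖ ^ 2 : ℝ) : ℂ) := by
  have h := (isTors_zero_left (Matrix.of fun (_ : Unit) (_ : Unit) => c) (by simpa using hc)).swap
  rw [inv_inv] at h
  simpa using h

/-- a cycle in the top degree prevents acyclicity -/
lemma not_isTors (γ : Fin 4 → G2) (k : ℕ) (r : ℂ) (v : Fin 4 → ℂ) (hv : v ≠ 0)
    (hF : ∀ g, ∑ i, (tval γ (rels k i)).F g * v i = 0)
    (hQ : ∑ i, (tval γ (rels k i)).Q * v i = 0) : ¬ IsTors (small1 γ) (small0 γ k) r := by
  rintro ⟨-, -, d₁, d₀, hd, -⟩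
  apply hv
  set V : Unit ⊕ Fin 4 → ℂ := Sum.elim (fun _ => 0) v with hV
  have h0 : small0 γ k *ᵥ V = 0 := by
    funext y
    rcases y with g | y
    · have := hF g
      simpa [Matrix.mulVec, dotProduct, small0, hV] using this
    · simpa [Matrix.mulVec, dotProduct, small0, hV] using hQ
  have h1 : V = small1 γ *ᵥ (d₀ *ᵥ V) := by
    have h2 := congrArg (fun M => M *ᵥ V) hd.hα
    simp only [Matrix.add_mulVec, ← Matrix.mulVec_mulVec, h0, Matrix.mulVec_zero, add_zero,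
      Matrix.one_mulVec] at h2
    exact h2.symm
  funext i
  have h3 := congrFun h1 (Sum.inr i)
  have h4 : (small1 γ *ᵥ (d₀ *ᵥ V)) (Sum.inr i) = 0 := by
    simp [Matrix.mulVec, dotProduct, small1]
  rw [h4] at h3
  simpa [hV] using h3

/-! ### the matrix -/

/-- reordering of the odd basis: `ℓ_t` first -/
def ff : Unit ⊕ Fin 4 ≃ Fin 4 ⊕ Unit where
  toFun x := match x with
    | Sum.inl _ => Sum.inl 0
    | Sum.inr 0 => Sum.inl 1
    | Sum.inr 1 => Sum.inl 2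
    | Sum.inr 2 => Sum.inl 3
    | Sum.inr 3 => Sum.inr ()
  invFun x := match x with
    | Sum.inl 0 => Sum.inl ()
    | Sum.inl 1 => Sum.inr 0
    | Sum.inl 2 => Sum.inr 1
    | Sum.inl 3 => Sum.inr 2
    | Sum.inr _ => Sum.inr 3
  left_inv x := by
    rcases x with x | x
    · rfl
    · fin_cases x <;> rfl
  right_inv x := by
    rcases x with x | x
    · fin_cases x <;> rfl
    · rfl

variable {γ : Fin 4 → G2} {z u a b f f' : ℂ}

/-- the minor -/
def MM (z a f f' q₂ q₄ : ℂ) (k : ℕ) : Matrix (Fin 4) (Fin 4) ℂ :=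
  !![2, 0, (1 - z) ^ 2, 0;
     0, 2 * (1 - z), 0, 0;
     0, 0, 0, (1 + z) ^ k * (1 - z);
     2 * a * f', q₂, 2 * a * (1 - z) * f, q₄]

lemma det_MM (z a f f' q₂ q₄ : ℂ) (k : ℕ) : (MM z a f f' q₂ q₄ k).det =
    -((1 + z) ^ k * (1 - z) * (2 * (1 - z)) *
      (2 * (2 * a * (1 - z) * f) - (1 - z) ^ 2 * (2 * a * f'))) := by
  have e : Fin.succAbove (2 : Fin 4) (2 : Fin 3) = 3 := rfl
  simp [MM, det_succ_row_zero, Fin.sum_univ_succ, e]
  ring

lemma Std.eq1 (h : Std γ z u a b f f') : (small1 γ).submatrix (Equiv.refl _) ff =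
    fromBlocks (Matrix.of fun (_ : Unit) (_ : Unit) => z - 1)
      (Matrix.of fun (_ : Unit) (j : Fin 4) => (![0, 0, u - 1, 0] : Fin 4 → ℂ) j) 0 0 := by
  ext x y
  rcases x with x | x <;> rcases y with y | y
  · simp [small1, ff, h.hz]
  · fin_cases y <;> simp [small1, ff, h.rx, h.ry, h.hu]
  · fin_cases x <;> simp [small1, ff]
  · fin_cases x <;> fin_cases y <;> simp [small1, ff]

lemma Std.eq0 (h : Std γ z u a b f f') (k : ℕ) : (small0 γ k).submatrix ff (Equiv.refl _) =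
    fromBlocks 0
      (Matrix.of fun (_ : Unit) (j : Fin 4) =>
        (![0, 0, 0, (1 + z) ^ k * (u - 1)] : Fin 4 → ℂ) j) 0
      (MM z a f f' (tval γ R2).Q (tval γ (MP_50ef00_gt.vk k)).Q k) := by
  ext x y
  rcases x with x | x <;> rcases y with y | y
  · simp [small0, ff]
  · fin_cases y <;> simp [small0, ff, rels, h.R1_F, h.R2_F, h.R3_F, h.vk_F]
  · fin_cases x <;> simp [small0, ff]
  · fin_cases x <;> fin_cases y <;>
      simp [small0, ff, rels, MM, h.R1_F, h.R2_F, h.R3_F, h.vk_F, h.R1_Q, h.R3_Q]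

/-- the torsion of the small complex -/
lemma Std.isTors (h : Std γ z u a b f f') (k : ℕ)
    (hdet : (MM z a f f' (tval γ R2).Q (tval γ (MP_50ef00_gt.vk k)).Q k).det ≠ 0) :
    IsTors (small1 γ) (small0 γ k) (((‖z - 1‖ ^ 2 : ℝ) : ℂ) *
      ((‖(MM z a f f' (tval γ R2).Q (tval γ (MP_50ef00_gt.vk k)).Q k).det‖ ^ 2 : ℝ) : ℂ)⁻¹) := by
  rw [← isTors_reindex_iff (Equiv.refl _) ff, h.eq1, h.eq0]
  refine IsTors.block (isTors_unit (z - 1) (sub_ne_zero.mpr h.z1)) (isTors_zero_left _ hdet) ?_ ?_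
  · ext x j
    fin_cases j <;> simp [Matrix.mul_apply, MM, Fin.sum_univ_succ]
    ring
  · simp

end Pool.Agent.Lib.MP_50ef00_gt.H96
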