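import Pool.Agent.Lib.MP_50ef00_gt.H96.WordVal

/-!
MP_50ef00_gt, negative side: Fox vectors and areas of the relators for a holonomy in standard form.
-/

namespace Pool.Agent.Lib.MP_50ef00_gt.H96

open H65 Matrix

/-- standard form of a holonomy -/
structure Std (γ : Fin 4 → G2) (z u a b f f' : ℂ) : Prop where
  t1 : (γ 0).1 = 1
  t5 : γ 0 ^ 5 = 1
  hz : rho (γ 0) = z
  z1 : z ≠ 1
  ft : (γ 0).2.tr = f
  hx : γ 1 = (⟨1, a⟩, 1)
  hy : γ 2 = (⟨-1, b⟩, ⟨-1, f'⟩)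
  hu : rho (γ 3) = u
  wt : γ 3 * γ 0 = γ 0 * γ 3

variable {γ : Fin 4 → G2} {z u a b f f' : ℂ}

lemma Std.rx (h : Std γ z u a b f f') : rho (γ 1) = 1 := by
  rw [h.hx]; simp [rho]

lemma Std.ry (h : Std γ z u a b f f') : rho (γ 2) = 1 := by
  rw [h.hy]; simp [rho]

lemma Std.t6 (h : Std γ z u a b f f') : Trip.gen γ 0 ^ 6 = Trip.gen γ 0 := by
  rw [show 6 = 5 + 1 by norm_num, pow_succ, gen_pow5 γ h.t5 h.t1 (by rw [h.hz]; exact h.z1),
    one_mul]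

lemma gen_F (i g : Fin 4) : (Trip.gen γ i).F g = (Pi.single i 1 : Fin 4 → ℂ) g := rfl
lemma gen_A (i : Fin 4) : (Trip.gen γ i).A = γ i := rfl
lemma gen_Q (i : Fin 4) : (Trip.gen γ i).Q = 0 := rfl

lemma Std.R1_F (h : Std γ z u a b f f') (g : Fin 4) :
    (tval γ R1).F g = 2 * (Pi.single 1 1 : Fin 4 → ℂ) g := by
  rw [tval, wval_R1]
  simp only [Trip.mul_F, Trip.inv_F, gen_F, gen_A, Trip.mul_A, Trip.inv_A, rho_mul, Trip.rho_inv,
    h.rx, h.ry]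
  ring

lemma Std.R1_Q (h : Std γ z u a b f f') : (tval γ R1).Q = 2 * a * f' := by
  rw [tval, wval_R1]
  simp only [Trip.mul_Q, Trip.inv_Q, gen_Q, gen_A, Trip.mul_A, Trip.inv_A]
  rw [h.hx, h.hy]
  simp [cross, pos]
  ring

lemma Std.y2_A (h : Std γ z u a b f f') : γ 2 * γ 2 = 1 := by
  rw [h.hy]
  ext1 <;> ext1 <;> simp

lemma Std.R2_F (h : Std γ z u a b f f') (g : Fin 4) :
    (tval γ R2).F g = 2 * (1 - z) * (Pi.single 2 1 : Fin 4 → ℂ) g := by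
  rw [tval, wval_R2, h.t6, pow_two]
  have hc := (trip_comm (Trip.gen γ 2 * Trip.gen γ 2) (Trip.gen γ 0)
    (by rw [Trip.mul_A, gen_A, gen_A, h.y2_A, one_mul, mul_one]) g).1
  rw [hc, Trip.mul_A, gen_A, gen_A, h.y2_A, rho_one, Trip.mul_F, gen_F, gen_A, h.ry, h.hz]
  ring

lemma Std.T_A (h : Std γ z u a b f f') : γ 1 * γ 0 * (γ 1)⁻¹ = γ 0 := by
  ext1
  · rw [Prod.fst_mul, Prod.fst_mul, h.t1, mul_one, Prod.fst_inv, mul_inv_cancel]
  · rw [h.hx]; simp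

lemma Std.R3_F (h : Std γ z u a b f f') (g : Fin 4) :
    (tval γ R3).F g = (1 - z) ^ 2 * (Pi.single 1 1 : Fin 4 → ℂ) g := by
  rw [tval, wval_R3, h.t6]
  have hc := (trip_comm (Trip.gen γ 1 * Trip.gen γ 0 * (Trip.gen γ 1)⁻¹) (Trip.gen γ 0)
    (by simp only [Trip.mul_A, Trip.inv_A, gen_A, h.T_A]) g).1
  rw [hc]
  simp only [Trip.mul_A, Trip.inv_A, gen_A, h.T_A, Trip.mul_F, Trip.inv_F, gen_F, h.hz, h.rx,
    rho_mul]
  ring

lemma Std.R3_Q (h : Std γ z u a b f f') : (tval γ R3).Q = 2 * a * (1 - z) * f := by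
  rw [tval, wval_R3, h.t6]
  have hc := (trip_comm (Trip.gen γ 1 * Trip.gen γ 0 * (Trip.gen γ 1)⁻¹) (Trip.gen γ 0)
    (by simp only [Trip.mul_A, Trip.inv_A, gen_A, h.T_A]) 0).2
  rw [hc]
  simp only [Trip.mul_A, Trip.inv_A, gen_A, h.T_A, Trip.mul_Q, Trip.inv_Q, gen_Q]
  have e0 : (γ 0).1.tr = 0 := by rw [h.t1]; rfl
  have e2 : (γ 0).1.lin = 1 := by rw [h.t1]; rfl
  rw [h.hz, h.rx, h.hx]
  simp only [cross, pos, e0, Prod.fst_mul, Prod.snd_mul, Aff.mul_tr, e2, h.ft,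
    inv_one, Circle.coe_one]
  simp
  ring

lemma Std.v_A (h : Std γ z u a b f f') (k : ℕ) :
    (vk (Trip.gen γ 0) (Trip.gen γ 3) k).A = 1 := by
  induction k with
  | zero =>
    simp only [vk, Trip.mul_A, Trip.inv_A, gen_A, h.wt]
    group
  | succ k ih =>
    simp only [vk, Trip.mul_A, Trip.inv_A, gen_A, ih]
    group

lemma Std.v_F (h : Std γ z u a b f f') (k : ℕ) (g : Fin 4) :
    (vk (Trip.gen γ 0) (Trip.gen γ 3) k).F g = (1 + z) ^ k *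
      ((1 - z) * (Pi.single 3 1 : Fin 4 → ℂ) g + (u - 1) * (Pi.single 0 1 : Fin 4 → ℂ) g) := by
  induction k with
  | zero =>
    have hc := (trip_comm (Trip.gen γ 3) (Trip.gen γ 0) h.wt g).1
    rw [vk, hc]
    simp only [gen_A, gen_F, h.hz, h.hu]
    ring
  | succ k ih =>
    have hA := h.v_A k
    have hz0 : z ≠ 0 := by rw [← h.hz]; exact rho_ne_zero _
    simp only [vk, Trip.mul_F, Trip.inv_F, Trip.mul_A, gen_A, gen_F, hA, ih, rho_one, mul_one,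
      h.hz]
    field_simp
    ring

lemma Std.vk_F (h : Std γ z u a b f f') (k : ℕ) (g : Fin 4) :
    (tval γ (MP_50ef00_gt.vk k)).F g = (1 + z) ^ k *
      ((1 - z) * (Pi.single 3 1 : Fin 4 → ℂ) g + (u - 1) * (Pi.single 0 1 : Fin 4 → ℂ) g) := by
  rw [tval, wval_vk]; exact h.v_F k g

end Pool.Agent.Lib.MP_50ef00_gt.H96
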